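import Pool.Agent.Helper63.MEI.Rad2
import Pool.Agent.Helper93.MEI.Blk4

/-!
# Project MEI (M2): mass of the weighted cell by the radial calibration, III: the volume
-/

set_option autoImplicit false

namespace Helper63.Rad

open Set MeasureTheory Filter Topology Metric
open Helper80.CW Helper22.Wedge Helper22.Sig Helper14.CW Helper14.MEI2 Helper93.MEI
open Helper22.MEI (s t FD FD_pos)
open Helper21.Sec Helper21.Mom Helper53.MEI
open Helper93.MEI.Blk (Cw Cw_cont int_Cw hh yl yu yl_cont yu_cont yy uu uu_cont e1 e1_nonneg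
  yy_facts yy_le sq_le4 low3_mem s3b int_lo3)
open scoped RealInnerProductSpace ContDiff Real

/-- the region in coordinates -/
def Rd (sg d : ℝ) : Set (ℝ × (ℝ × ℝ)) :=
  {q | q.1 ∈ Ioc (-(1 / 2) : ℝ) (1 / 2) ∧ 0 < uu sg d q.1 ∧ q.2 ∈ Sd (√3 * uu sg d q.1)}

theorem Rd_meas (sg d : ℝ) : MeasurableSet (Rd sg d) := by
  have hu : Continuous fun q : ℝ × (ℝ × ℝ) => uu sg d q.1 :=
    (uu_cont sg d).comp continuous_fst
  have m1 : MeasurableSet {q : ℝ × (ℝ × ℝ) | q.1 ∈ Ioc (-(1 / 2) : ℝ) (1 / 2)} :=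
    measurable_fst measurableSet_Ioc
  have m2 : MeasurableSet {q : ℝ × (ℝ × ℝ) | 0 < uu sg d q.1} :=
    measurableSet_lt measurable_const hu.measurable
  have m3 : MeasurableSet {q : ℝ × (ℝ × ℝ) | √2 * |q.2.1| < q.2.2} :=
    measurableSet_lt (by fun_prop : Continuous fun q : ℝ × (ℝ × ℝ) => √2 * |q.2.1|).measurable
      (by fun_prop : Continuous fun q : ℝ × (ℝ × ℝ) => q.2.2).measurable
  have m4 : MeasurableSet {q : ℝ × (ℝ × ℝ) | q.2.1 ^ 2 + q.2.2 ^ 2 < (√3 * uu sg d q.1) ^ 2} :=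
    measurableSet_lt (by fun_prop : Continuous fun q : ℝ × (ℝ × ℝ) =>
      q.2.1 ^ 2 + q.2.2 ^ 2).measurable ((continuous_const.mul hu).pow 2).measurable
  have e : Rd sg d = {q : ℝ × (ℝ × ℝ) | q.1 ∈ Ioc (-(1 / 2) : ℝ) (1 / 2)} ∩
      ({q : ℝ × (ℝ × ℝ) | 0 < uu sg d q.1} ∩ ({q : ℝ × (ℝ × ℝ) | √2 * |q.2.1| < q.2.2} ∩
      {q : ℝ × (ℝ × ℝ) | q.2.1 ^ 2 + q.2.2 ^ 2 < (√3 * uu sg d q.1) ^ 2})) := by
    ext q
    unfold Rd Sd
    simp only [mem_ofPred_eq, mem_inter_iff]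
  rw [e]
  exact m1.inter (m2.inter (m3.inter m4))

/-- facts at a point of the region -/
theorem Rd_facts {s1 s2 : ℝ} (h1 : 0 ≤ s1) (h2 : 0 ≤ s2) {q : ℝ × (ℝ × ℝ)}
    (hq : q ∈ Rd (s1 + s2) (s1 - s2)) :
    |q.1| ≤ 1 / 2 ∧ √2 * |q.2.1| < q.2.2 ∧
      q.2.1 ^ 2 + q.2.2 ^ 2 ≤ 3 * uu (s1 + s2) (s1 - s2) q.1 ^ 2 ∧
      q.2.1 ^ 2 + q.2.2 ^ 2 ≤ 1 / 48 := by
  obtain ⟨hX, hu, hS⟩ := hq
  have hX' : |q.1| ≤ 1 / 2 := abs_le.2 ⟨hX.1.le, hX.2⟩
  obtain ⟨_, _, h3⟩ := s3b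
  have e : (√3 * uu (s1 + s2) (s1 - s2) q.1) ^ 2 = 3 * uu (s1 + s2) (s1 - s2) q.1 ^ 2 := by
    rw [mul_pow, sq √3, h3]
  have a3 := hS.2
  rw [e] at a3
  have he := e1_nonneg h1 h2 hX'
  have hy := (yy_le hX').2
  have k1 : uu (s1 + s2) (s1 - s2) q.1 ≤ 1 / 12 := by
    unfold uu
    linarith
  have k2 : 3 * uu (s1 + s2) (s1 - s2) q.1 ^ 2 ≤ 1 / 48 := by
    have := pow_le_pow_left₀ hu.le k1 2
    linarith
  exact ⟨hX', hS.1, a3.le, a3.le.trans k2⟩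

theorem Rd_bdd {s1 s2 : ℝ} (h1 : 0 ≤ s1) (h2 : 0 ≤ s2) :
    Bornology.IsBounded (Rd (s1 + s2) (s1 - s2)) := by
  have h : Rd (s1 + s2) (s1 - s2) ⊆ Icc (-(1 / 2)) (1 / 2) ×ˢ (Icc (-1) 1 ×ˢ Icc (-1) 1) := by
    intro q hq
    obtain ⟨a1, a2, a3, a4⟩ := Rd_facts h1 h2 hq
    have k : q.2.1 ^ 2 ≤ 1 ^ 2 := by nlinarith [sq_nonneg q.2.2]
    have k' : q.2.2 ^ 2 ≤ 1 ^ 2 := by nlinarith [sq_nonneg q.2.1]
    exact ⟨abs_le.1 a1, abs_le.1 (abs_le_of_sq_le_sq k zero_le_one),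
      abs_le.1 (abs_le_of_sq_le_sq k' zero_le_one)⟩
  exact ((isBounded_Icc _ _).prod ((isBounded_Icc _ _).prod (isBounded_Icc _ _))).subset h

variable {b : OrthonormalBasis (Fin 3) ℝ E3} {c : E3}

/-- **the region is in the body and in the cell** -/
theorem Rd_sub {K : Set E3} {s1 s2 s3 s4 : ℝ} (h : Bod b c K s1 s2 s3 s4) :
    Cw b c ⁻¹' Rd (s1 + s2) (s1 - s2) ⊆ K ∩ EC b c := by
  intro x hx
  obtain ⟨a1, a3, a4, a5⟩ := Rd_facts h.s1_nn h.s2_nn hx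
  refine ⟨low3_mem h a1 hx.2.1.le a4, ?_⟩
  have hr := r2
  change |(co b c x).2.1| < √2 / 2 * ((co b c x).2.2 - √2 / 4)
  have h5 : √2 * |(co b c x).2.1| < (co b c x).2.2 - √2 / 4 := a3
  have h6 := mul_lt_mul_of_pos_left h5 (by positivity : 0 < √2 / 2)
  have h7 : √2 / 2 * (√2 * |(co b c x).2.1|) = |(co b c x).2.1| := by
    linear_combination |(co b c x).2.1| / 2 * hr
  rwa [h7] at h6

/-- the factor of the section -/
noncomputable def Aq (X : ℝ) : ℝ := 1 - X ^ 2 / 2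

/-- lower function of the section -/
noncomputable def Pq (sg d X : ℝ) : ℝ :=
  (Aq X * yl X - 12 * yu X ^ 3) - (1 / 3 * (Aq X * e1 sg d X) - 12 * (yl X ^ 2 * e1 sg d X)) -
    4 * (yu X * e1 sg d X ^ 2)

theorem Aq_cont : Continuous Aq := by unfold Aq; fun_prop

theorem e1_cont (sg d : ℝ) : Continuous (e1 sg d) := by unfold e1; fun_prop

theorem Pq_cont (sg d : ℝ) : Continuous (Pq sg d) := by
  have h1 := Aq_cont
  have h2 := yl_cont
  have h3 := yu_cont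
  have h4 := e1_cont sg d
  unfold Pq
  fun_prop

/-- the lower function in coordinates -/
noncomputable def Hr (φ : ℝ → ℝ) (ε : ℝ) (q : ℝ × (ℝ × ℝ)) : ℝ := φ q.1 * Gr (Aq q.1) ε q.2

theorem Hr_cont {φ : ℝ → ℝ} (cφ : Continuous φ) {ε : ℝ} (hε : 0 < ε) : Continuous (Hr φ ε) := by
  have hA := Aq_cont
  have h1 : Continuous fun q : ℝ × (ℝ × ℝ) => (√(q.2.1 ^ 2 + q.2.2 ^ 2 + ε ^ 2))⁻¹ := by
    refine Continuous.inv₀ (by fun_prop) fun q => ?_
    have : 0 < q.2.1 ^ 2 + q.2.2 ^ 2 + ε ^ 2 := by positivity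
    positivity
  have h2 : Continuous fun q : ℝ × (ℝ × ℝ) => Aq q.1 - 12 * (q.2.1 ^ 2 + q.2.2 ^ 2) := by fun_prop
  have h3 : Continuous fun q : ℝ × (ℝ × ℝ) => φ q.1 := cφ.comp continuous_fst
  exact h3.mul (h2.mul h1)

/-- **the section from below** -/
theorem sec_ge {s1 s2 X : ℝ} (h1 : 0 ≤ s1) (h2 : 0 ≤ s2) (hX : |X| ≤ 1 / 2) {ε : ℝ}
    (hε : 0 < ε) (hu : 0 < uu (s1 + s2) (s1 - s2) X) :
    ka * (√3 * Pq (s1 + s2) (s1 - s2) X - ε * Aq X) ≤
      ∫ w in Sd (√3 * uu (s1 + s2) (s1 - s2) X), Gr (Aq X) ε w := by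
  obtain ⟨t1, t2, t3⟩ := s3b
  obtain ⟨y0, _, yl', yu'⟩ := yy_facts hX
  have hyl : yl X ≤ yy X := yl'
  have hyu : yy X ≤ yu X := yu'
  have he := e1_nonneg h1 h2 hX
  have hy := (yy_le hX).2
  have hX2 := sq_le_of_abs hX
  have hk0 : 0 ≤ ka := by linarith [ka_lo]
  have hL : 0 < √3 * uu (s1 + s2) (s1 - s2) X := by positivity
  have hA : 7 / 8 ≤ Aq X := by unfold Aq; linarith
  have hyl0 : 0 ≤ yl X := by
    obtain ⟨h0, h4⟩ := sq_le4 hX
    have hh0 : 0 ≤ hh X := h0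
    have hh4 : hh X ≤ 1 / 4 := h4
    unfold yl
    have : 0 ≤ hh X * (1 - 1 / 3 * hh X + 0.18 * hh X ^ 2) := mul_nonneg hh0 (by nlinarith)
    linarith
  have hL2 : 12 * (√3 * uu (s1 + s2) (s1 - s2) X) ^ 2 ≤ Aq X := by
    have e : (√3 * uu (s1 + s2) (s1 - s2) X) ^ 2 = 3 * uu (s1 + s2) (s1 - s2) X ^ 2 := by
      rw [mul_pow, sq √3, t3]
    have k1 : uu (s1 + s2) (s1 - s2) X ≤ 1 / 12 := by
      unfold uu
      linarith
    have k2 := pow_le_pow_left₀ hu.le k1 2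
    rw [e]
    linarith
  refine le_trans ?_ (polar_lo hL hL2 hε)
  refine mul_le_mul_of_nonneg_left ?_ hk0
  have hue : uu (s1 + s2) (s1 - s2) X = yy X - e1 (s1 + s2) (s1 - s2) X / 3 := rfl
  have e3 : (√3 * uu (s1 + s2) (s1 - s2) X) ^ 3 = √3 * (3 * uu (s1 + s2) (s1 - s2) X ^ 3) := by
    have : (√3 * uu (s1 + s2) (s1 - s2) X) ^ 3 =
      √3 * ((√3 * √3) * uu (s1 + s2) (s1 - s2) X ^ 3) := by ring
    rw [this, t3]
  rw [e3]
  set u := uu (s1 + s2) (s1 - s2) X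
  set e := e1 (s1 + s2) (s1 - s2) X with hed
  set y := yy X
  have k3 : u ^ 3 ≤ yu X ^ 3 - yl X ^ 2 * e + yu X * e ^ 2 / 3 := by
    have j1 : u ^ 3 = y ^ 3 - y ^ 2 * e + y * e ^ 2 / 3 - e ^ 3 / 27 := by rw [hue]; ring
    have j2 : y ^ 3 ≤ yu X ^ 3 := pow_le_pow_left₀ y0 hyu 3
    have j3 : yl X ^ 2 * e ≤ y ^ 2 * e :=
      mul_le_mul_of_nonneg_right (pow_le_pow_left₀ hyl0 hyl 2) he
    have j4 : y * e ^ 2 ≤ yu X * e ^ 2 := mul_le_mul_of_nonneg_right hyu (sq_nonneg e)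
    have j5 : 0 ≤ e ^ 3 := pow_nonneg he 3
    linarith
  have k4 : Pq (s1 + s2) (s1 - s2) X ≤ Aq X * u - 12 * u ^ 3 := by
    have j1 : Aq X * yl X ≤ Aq X * y := mul_le_mul_of_nonneg_left hyl (by linarith)
    unfold Pq
    rw [← hed, hue] at *
    linarith
  have k5 := mul_le_mul_of_nonneg_left k4 (by linarith : 0 ≤ √3)
  linarith

/-- the lower function is nonpositive when the section is empty -/
theorem sec_neg {s1 s2 X : ℝ} (hX : |X| ≤ 1 / 2) (hu : uu (s1 + s2) (s1 - s2) X ≤ 0) :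
    Pq (s1 + s2) (s1 - s2) X ≤ 0 := by
  obtain ⟨y0, _, yl', yu'⟩ := yy_facts hX
  have hyl : yl X ≤ yy X := yl'
  have hyu : yy X ≤ yu X := yu'
  have hX2 := sq_le_of_abs hX
  have hA : 0 ≤ Aq X := by unfold Aq; linarith
  have hyl0 : 0 ≤ yl X := by
    obtain ⟨h0, h4⟩ := sq_le4 hX
    have hh0 : 0 ≤ hh X := h0
    have hh4 : hh X ≤ 1 / 4 := h4
    unfold yl
    have : 0 ≤ hh X * (1 - 1 / 3 * hh X + 0.18 * hh X ^ 2) := mul_nonneg hh0 (by nlinarith)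
    linarith
  have hue : uu (s1 + s2) (s1 - s2) X = yy X - e1 (s1 + s2) (s1 - s2) X / 3 := rfl
  rw [hue] at hu
  unfold Pq
  set e := e1 (s1 + s2) (s1 - s2) X
  set y := yy X
  have he : 3 * y ≤ e := by linarith
  have he0 : 0 ≤ e := by linarith
  have j1 : Aq X * yl X ≤ Aq X * (e / 3) := mul_le_mul_of_nonneg_left (by linarith) hA
  have j2 : 0 ≤ yu X ^ 3 := pow_nonneg (by linarith) 3
  have j3 : 12 * (yl X ^ 2 * e) ≤ 4 * (yu X * e ^ 2) := by
    have i1 : yl X ^ 2 ≤ y * yu X := by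
      have i2 : yl X * yl X ≤ y * yu X := mul_le_mul hyl (hyl.trans hyu) hyl0 y0
      nlinarith
    have i3 := mul_le_mul_of_nonneg_right i1 he0
    have i4 := mul_le_mul_of_nonneg_left he (mul_nonneg (y0.trans hyu) he0)
    nlinarith
  linarith

section
variable {K : Set E3} (hK : IsCompact K) {s1 s2 s3 s4 : ℝ} (h : Bod b c K s1 s2 s3 s4)
  (hSl : ∀ x ∈ K, |(co b c x).1| + |(co b c x).2.1| + √2 * ((co b c x).2.2 - √2 / 4) ≤ 1 / 2)

include hK h hSl in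
/-- **the volume term from below** -/
theorem rad_vol {φ : ℝ → ℝ} (cφ : Continuous φ) (hφ : ∀ X : ℝ, |X| ≤ 1 / 2 → 0 ≤ φ X) {ε : ℝ}
    (hε : 0 < ε) :
    ka * (√3 * (∫ x in (-(1 / 2) : ℝ)..(1 / 2), φ x * Pq (s1 + s2) (s1 - s2) x) -
      ε * ∫ x in (-(1 / 2) : ℝ)..(1 / 2), φ x * Aq x) ≤
      ∫ x in K ∩ EC b c, dR φ ε (co b c x) := by
  have hs1 := h.s1_nn
  have hs2 := h.s2_nn
  have hk0 : 0 ≤ ka := by linarith [ka_lo]
  have hEm : MeasurableSet (EC b c) := by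
    rw [← cel_eq]; exact (Cel_open _ _).measurableSet
  have hKE : MeasurableSet (K ∩ EC b c) := hK.isClosed.measurableSet.inter hEm
  have hcc := (co_cd b c).continuous
  have hFD : Continuous (fun q : ℝ × ℝ × ℝ => FD q) := (Helper37.MEI.FD_cdn (n := 0)).continuous
  have hri : Continuous (ri ε) := (ri_cd hε (n := 0)).continuous
  have hr2 : Continuous r2q := by unfold r2q; fun_prop
  have hdc : Continuous (dR φ ε) := by
    unfold dR omF
    have i1 : Continuous fun q : ℝ × ℝ × ℝ => φ q.1 := cφ.comp continuous_fst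
    refine Continuous.sub (Continuous.mul (i1.div (continuous_const.mul hFD) fun q => ?_)
      (by fun_prop)) (Continuous.mul ((i1.mul hr2).div (continuous_const.mul (hFD.pow 2))
        fun q => ?_) hri)
    · have := FD_pos q
      positivity
    · have := FD_pos q
      positivity
  have hFi : IntegrableOn (fun x : E3 => dR φ ε (co b c x)) K :=
    (hdc.comp hcc).continuousOn.integrableOn_compact hK
  have hsub := Rd_sub h
  have hRm : MeasurableSet (Cw b c ⁻¹' Rd (s1 + s2) (s1 - s2)) :=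
    (Cw_cont b c).measurable (Rd_meas _ _)
  have st1 : ∫ x in Cw b c ⁻¹' Rd (s1 + s2) (s1 - s2), dR φ ε (co b c x) ≤
      ∫ x in K ∩ EC b c, dR φ ε (co b c x) := by
    refine setIntegral_mono_set (hFi.mono_set inter_subset_left) ?_ hsub.eventuallyLE
    refine (ae_restrict_iff' hKE).2 (ae_of_all _ fun x hx => ?_)
    refine dR_nonneg hε (hφ _ (h.X_le x hx.1)) ?_
    have h1 := hSl x hx.1
    have h2 := hx.2
    rw [Helper37.Bulk.EC_iff] at h2
    unfold r2q t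
    have a1 := abs_nonneg (co b c x).1
    have a2 := abs_nonneg (co b c x).2.1
    have e : (co b c x).2.1 ^ 2 = |(co b c x).2.1| ^ 2 := (sq_abs _).symm
    rw [e]
    have r := r2
    have s2l : (1.4142135 : ℝ) < √2 := by rw [Real.lt_sqrt (by norm_num)]; norm_num
    have s2u : √2 ≤ 1.4142136 := by rw [Real.sqrt_le_left (by norm_num)]; norm_num
    generalize |(co b c x).2.1| = Y at *
    generalize (co b c x).2.2 - √2 / 4 = W at *
    have hW0 : 0 ≤ W := by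
      by_contra hcon
      rw [not_le] at hcon
      have : √2 / 2 * W ≤ 0 := mul_nonpos_of_nonneg_of_nonpos (by positivity) hcon.le
      linarith
    have hW1 : W ≤ 0.3536 := by
      have h5 : 1.4142135 * W ≤ √2 * W := mul_le_mul_of_nonneg_right s2l.le hW0
      linarith
    have hY1 : Y ≤ 0.2501 := by
      have h5 : √2 / 2 * W ≤ 0.7072 * 0.3536 :=
        mul_le_mul (by linarith) hW1 hW0 (by norm_num)
      linarith
    nlinarith
  have hHc : Continuous fun x : E3 => Hr φ ε (Cw b c x) := (Hr_cont cφ hε).comp (Cw_cont b c)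
  have st2 : ∫ x in Cw b c ⁻¹' Rd (s1 + s2) (s1 - s2), Hr φ ε (Cw b c x) ≤
      ∫ x in Cw b c ⁻¹' Rd (s1 + s2) (s1 - s2), dR φ ε (co b c x) := by
    refine setIntegral_mono_on
      ((hHc.continuousOn.integrableOn_compact hK).mono_set (hsub.trans inter_subset_left))
      (hFi.mono_set (hsub.trans inter_subset_left)) hRm fun x hx => ?_
    have a1 := (Rd_facts hs1 hs2 hx).1
    exact dR_lo hε (q := co b c x) (hφ _ a1)
  rw [int_Cw b c] at st2
  refine le_trans ?_ (st2.trans st1)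
  have cP := Pq_cont (s1 + s2) (s1 - s2)
  have cA := Aq_cont
  have i1 : ka * (√3 * (∫ x in (-(1 / 2) : ℝ)..(1 / 2), φ x * Pq (s1 + s2) (s1 - s2) x) -
      ε * ∫ x in (-(1 / 2) : ℝ)..(1 / 2), φ x * Aq x) =
      ∫ x in (-(1 / 2) : ℝ)..(1 / 2), φ x * (ka * (√3 * Pq (s1 + s2) (s1 - s2) x - ε * Aq x)) := by
    have j1 : Continuous fun x => ka * √3 * (φ x * Pq (s1 + s2) (s1 - s2) x) :=
      continuous_const.mul (cφ.mul cP)
    have j2 : Continuous fun x => ka * ε * (φ x * Aq x) := continuous_const.mul (cφ.mul cA)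
    have j3 : (fun x => φ x * (ka * (√3 * Pq (s1 + s2) (s1 - s2) x - ε * Aq x))) =
        fun x => ka * √3 * (φ x * Pq (s1 + s2) (s1 - s2) x) - ka * ε * (φ x * Aq x) := by
      funext x
      ring
    rw [j3, intervalIntegral.integral_sub (j1.intervalIntegrable _ _)
      (j2.intervalIntegrable _ _), intervalIntegral.integral_const_mul,
      intervalIntegral.integral_const_mul]
    ring
  rw [i1]
  refine int_lo3 (Rd_meas _ _) (Rd_bdd hs1 hs2) (Hr_cont cφ hε) (by fun_prop) (by norm_num)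
    (fun X hX => ?_) (fun X hX w hw => hX hw.1)
  have hX' : |X| ≤ 1 / 2 := abs_le.2 ⟨hX.1.le, hX.2⟩
  have h0 := hφ X hX'
  rcases lt_or_ge 0 (uu (s1 + s2) (s1 - s2) X) with hu | hu
  · have e : {w : ℝ × ℝ | (X, w) ∈ Rd (s1 + s2) (s1 - s2)} =
        Sd (√3 * uu (s1 + s2) (s1 - s2) X) := by
      ext w
      unfold Rd
      simp only [mem_ofPred_eq, hX, hu, true_and]
    rw [e]
    unfold Hr
    simp only
    rw [integral_const_mul]
    exact mul_le_mul_of_nonneg_left (sec_ge hs1 hs2 hX' hε hu) h0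
  · have e : {w : ℝ × ℝ | (X, w) ∈ Rd (s1 + s2) (s1 - s2)} = ∅ := by
      ext w
      unfold Rd
      simp only [mem_ofPred_eq, mem_empty_iff_false, iff_false, not_and]
      intro _ h3
      exact absurd h3 (not_lt.2 hu)
    rw [e, setIntegral_empty]
    have k := sec_neg hX' hu
    have hX2 := sq_le_of_abs hX'
    have hA : 0 ≤ Aq X := by unfold Aq; linarith
    refine mul_nonpos_of_nonneg_of_nonpos h0 (mul_nonpos_of_nonneg_of_nonpos hk0 ?_)
    have k1 : √3 * Pq (s1 + s2) (s1 - s2) X ≤ 0 :=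
      mul_nonpos_of_nonneg_of_nonpos (Real.sqrt_nonneg 3) k
    have k2 : 0 ≤ ε * Aq X := mul_nonneg hε.le hA
    linarith

end

/-! ### the mass -/

section
variable {σ : Measure (E3 × E3)}
  [IsFiniteMeasure σ] {K : Set E3} (hK : IsCompact K)
  (hσ : ∀ᵐ z ∂σ, z.1 ∈ K ∧ z.2 ∈ K) (hd : ∀ᵐ z ∂σ, ‖z.1 - z.2‖ ≤ 1)
  (hU : ∀ G : E3 → E3, ContDiff ℝ ∞ G → ∫ z, ⟪G z.1, z.1 - z.2⟫ ∂σ = ∫ x in K, dvg G x)
  {s1 s2 s3 s4 : ℝ} (h : Bod b c K s1 s2 s3 s4)
  (hSl : ∀ x ∈ K, |(co b c x).1| + |(co b c x).2.1| + √2 * ((co b c x).2.2 - √2 / 4) ≤ 1 / 2)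

include hK hσ hd hU h hSl in
/-- smooth weight -/
theorem radG {φ : ℝ → ℝ} (sφ : ContDiff ℝ ∞ φ) (hφ : ∀ X : ℝ, |X| ≤ 1 / 2 → 0 ≤ φ X) :
    ka * (√3 * (∫ x in (-(1 / 2) : ℝ)..(1 / 2), φ x * Pq (s1 + s2) (s1 - s2) x)) ≤
      ∫ z in {z | z.1 ∈ EC b c}, omF φ (co b c z.1) ∂σ := by
  have h1 := lim_inv
  have hlim : Tendsto (fun m : ℕ => ka * (√3 * (∫ x in (-(1 / 2) : ℝ)..(1 / 2), φ x *
      Pq (s1 + s2) (s1 - s2) x) - (1 / ((m : ℝ) + 1)) *
        ∫ x in (-(1 / 2) : ℝ)..(1 / 2), φ x * Aq x)) atTop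
      (𝓝 (ka * (√3 * (∫ x in (-(1 / 2) : ℝ)..(1 / 2), φ x * Pq (s1 + s2) (s1 - s2) x)))) := by
    have hc : Continuous (fun u : ℝ => ka * (√3 * (∫ x in (-(1 / 2) : ℝ)..(1 / 2), φ x *
      Pq (s1 + s2) (s1 - s2) x) - u * ∫ x in (-(1 / 2) : ℝ)..(1 / 2), φ x * Aq x)) := by
      fun_prop
    have h2 := (hc.tendsto 0).comp h1
    refine h2.congr' ?_ |>.trans (le_of_eq ?_)
    · exact Eventually.of_forall fun m => rfl
    · congr 1
      ring
  refine le_of_tendsto' hlim fun m => ?_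
  have hm : (0 : ℝ) < 1 / ((m : ℝ) + 1) := by positivity
  exact (rad_vol hK h hSl sφ.continuous hφ hm).trans (rad_flux hK hσ hd hU h sφ hφ hm)

include hK hσ hd hU h hSl in
/-- **mass of the weighted cell from below, radial calibration** -/
theorem radP {φ : ℝ → ℝ} {φn : ℕ → ℝ → ℝ} (hw : Wgt φ φn) :
    ka * (√3 * (∫ x in (-(1 / 2) : ℝ)..(1 / 2), φ x * Pq (s1 + s2) (s1 - s2) x)) ≤
      ∫ z in {z | z.1 ∈ EC b c}, omF φ (co b c z.1) ∂σ := by
  have cn : ∀ n, Continuous (φn n) := fun n => (hw.sn n).continuous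
  have hcc := (co_cd b c).continuous
  have hFD : Continuous (fun z : E3 × E3 => FD (co b c z.1)) :=
    (Helper37.MEI.FD_cdn (n := 0)).continuous.comp (hcc.comp continuous_fst)
  have hg : Continuous (fun z : E3 × E3 => 1 / (4 * FD (co b c z.1))) := by
    refine Continuous.div continuous_const (continuous_const.mul hFD) fun z => ?_
    have := FD_pos (co b c z.1)
    positivity
  obtain ⟨B1, hB1⟩ := (hK.prod hK).bddAbove_image (hg.abs).continuousOn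
  have hgi : Integrable (fun z : E3 × E3 => 1 / (4 * FD (co b c z.1))) σ := by
    refine Integrable.of_bound hg.aestronglyMeasurable B1 ?_
    filter_upwards [hσ] with z hz
    exact hB1 ⟨z, ⟨hz.1, hz.2⟩, rfl⟩
  have e : ∀ (ψ : ℝ → ℝ) (z : E3 × E3), omF ψ (co b c z.1) =
      ψ (co b c z.1).1 * (1 / (4 * FD (co b c z.1))) := by
    intro ψ z
    unfold omF
    ring
  have l1 : Tendsto (fun n => ∫ z in {z | z.1 ∈ EC b c}, omF (φn n) (co b c z.1) ∂σ) atTop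
      (𝓝 (∫ z in {z | z.1 ∈ EC b c}, omF φ (co b c z.1) ∂σ)) := by
    simp only [e]
    refine lim_w (f := fun z : E3 × E3 => (co b c z.1).1) ?_ hgi.integrableOn ?_ cn hw.hn hw.hl
    · exact (continuous_fst.comp (hcc.comp continuous_fst)).measurable.aemeasurable
    · filter_upwards [ae_restrict_of_ae hσ] with z hz
      exact h.X_le _ hz.1
  have l2 := ((lim_J cn hw.hn hw.hl (Pq_cont (s1 + s2) (s1 - s2))).const_mul √3).const_mul ka
  exact le_of_tendsto_of_tendsto' l2 l1 fun n =>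
    radG hK hσ hd hU h hSl (hw.sn n) fun X hX => (hw.hn n X hX).1

end

end Helper63.Rad
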