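import Pool.Agent.Helper63.MEI.MassLo3
import Pool.Agent.Helper63.MEI.Rad3

/-!
# Project MEI (M2): mass of the weighted cell by the radial calibration, IV: numbers, all edges

Profiles `ph22 = 15/16 (1 - 4 x²)` and `fd = 1 - 7|x|/8`.
-/

set_option autoImplicit false

namespace Helper63.Rad

open Set MeasureTheory Filter Topology Metric
open Helper80.CW Helper22.Wedge Helper22.Sig Helper14.CW Helper14.MEI2 Helper93.MEI
open Helper22.MEI (s t FD FD_pos)
open Helper21.Sec Helper21.Mom Helper53.MEI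
open Helper93.MEI.Blk (hh yl yu yl_cont yu_cont e1)
open Pool.Agent.Helper95.MEI.Fub (Zp int_cont Zp_meas co_e)
open Pool.Agent.Helper73.MEI
open Helper49.Cpl (ph22 ph22_cont ph22_nonneg p0 dp rh mp)
open scoped RealInnerProductSpace ContDiff Real

/-! ### integrals -/

/-- an even weight on the half interval -/
theorem int_half {φ : ℝ → ℝ} (cφ : Continuous φ) (hev : ∀ x, φ (-x) = φ x) {E : ℝ → ℝ}
    (cE : Continuous E) : ∫ x in (-(1 / 2) : ℝ)..(1 / 2), φ x * E x =
      ∫ x in (0 : ℝ)..(1 / 2), φ x * (E x + E (-x)) := by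
  have hc : Continuous fun x => φ x * E x := cφ.mul cE
  have hc' : Continuous fun x => φ x * E (-x) := cφ.mul (cE.comp continuous_neg)
  rw [← intervalIntegral.integral_add_adjacent_intervals (b := 0) (hc.intervalIntegrable _ _)
    (hc.intervalIntegrable _ _)]
  have h1 : ∫ x in (-(1 / 2) : ℝ)..0, φ x * E x = ∫ x in (0 : ℝ)..(1 / 2), φ x * E (-x) := by
    have h3 := intervalIntegral.integral_comp_neg (a := 0) (b := 1 / 2) (fun x => φ x * E x)
    rw [neg_zero] at h3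
    rw [← h3]
    refine intervalIntegral.integral_congr fun x _ => ?_
    rw [hev]
  rw [h1, ← intervalIntegral.integral_add (hc'.intervalIntegrable _ _)
    (hc.intervalIntegrable _ _)]
  refine intervalIntegral.integral_congr fun x _ => ?_
  ring

/-- the even part -/
noncomputable def Qe (E d x : ℝ) : ℝ :=
  2 * ((Aq x * yl x - 12 * yu x ^ 3) - (1 / 3 * Aq x - 12 * yl x ^ 2) * E -
    4 * (yu x * (E ^ 2 + d ^ 2 * x ^ 2)))

theorem Qe_eq (sg d x : ℝ) : Pq sg d x + Pq sg d (-x) = Qe (0.5774 * sg) d x := by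
  have a1 : Aq (-x) = Aq x := by unfold Aq; ring
  have a2 : yl (-x) = yl x := by unfold yl hh; ring
  have a3 : yu (-x) = yu x := by unfold yu hh; ring
  unfold Pq Qe e1
  rw [a1, a2, a3]
  ring

theorem Qe_cont (E d : ℝ) : Continuous (Qe E d) := by
  have h1 := Aq_cont
  have h2 := yl_cont
  have h3 := yu_cont
  unfold Qe
  fun_prop

theorem int_Qph (E d : ℝ) : ∫ x in (0 : ℝ)..(1 / 2), ph22 x * Qe E d x =
    10744844939 / 297000000000 - 50682629 / 294840000 * E - (6571 / 42000 * E ^ 2 + 2857 / 504000 * d ^ 2) := by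
  have hd : ∀ x ∈ uIcc (0 : ℝ) (1 / 2), HasDerivAt (fun x : ℝ =>
      (82676230207 / 614400000000) * x ^ 1 +
      (-(159319305449 / 460800000000)) * x ^ 3 +
      (22466999449 / 64000000000) * x ^ 5 +
      (105347931 / 640000000) * x ^ 7 +
      (-(107612551 / 4320000000)) * x ^ 9 +
      (-(392081449 / 2200000000)) * x ^ 11 +
      (-(7863427 / 150000000)) * x ^ 13 +
      (-(2924207 / 562500000)) * x ^ 15 +
      (E * (-(18080471 / 36864000))) * x ^ 1 +
      (E * (11691697 / 27648000)) * x ^ 3 +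
      (E * (10189309 / 11520000)) * x ^ 5 +
      (E * (-(685103 / 806400))) * x ^ 7 +
      (E * (-(49697 / 259200))) * x ^ 9 +
      (E * (-(10919 / 36000))) * x ^ 11 +
      (E * (-(633 / 13000))) * x ^ 13 +
      (E * (-(27 / 1250))) * x ^ 15 +
      (E ^ 2 * (-(1857 / 3200))) * x ^ 1 +
      (E ^ 2 * (3571 / 2400)) * x ^ 3 +
      (E ^ 2 * (-(1571 / 1000))) * x ^ 5 +
      (E ^ 2 * (-(143 / 350))) * x ^ 7 +
      (d ^ 2 * (-(619 / 3200))) * x ^ 3 +
      (d ^ 2 * (3571 / 4000)) * x ^ 5 +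
      (d ^ 2 * (-(1571 / 1400))) * x ^ 7 +
      (d ^ 2 * (-(143 / 450))) * x ^ 9)
      (ph22 x * Qe E d x) x := by
    intro x _
    have k := ((((((((((((((((((((((((hpow 0 (82676230207 / 614400000000) x)).add (hpow 2 (-(159319305449 / 460800000000)) x)).add (hpow 4 (22466999449 / 64000000000) x)).add (hpow 6 (105347931 / 640000000) x)).add (hpow 8 (-(107612551 / 4320000000)) x)).add (hpow 10 (-(392081449 / 2200000000)) x)).add (hpow 12 (-(7863427 / 150000000)) x)).add (hpow 14 (-(2924207 / 562500000)) x)).add (hpow 0 (E * (-(18080471 / 36864000))) x)).add (hpow 2 (E * (11691697 / 27648000)) x)).add (hpow 4 (E * (10189309 / 11520000)) x)).add (hpow 6 (E * (-(685103 / 806400))) x)).add (hpow 8 (E * (-(49697 / 259200))) x)).add (hpow 10 (E * (-(10919 / 36000))) x)).add (hpow 12 (E * (-(633 / 13000))) x)).add (hpow 14 (E * (-(27 / 1250))) x)).add (hpow 0 (E ^ 2 * (-(1857 / 3200))) x)).add (hpow 2 (E ^ 2 * (3571 / 2400)) x)).add (hpow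 4 (E ^ 2 * (-(1571 / 1000))) x)).add (hpow 6 (E ^ 2 * (-(143 / 350))) x)).add (hpow 2 (d ^ 2 * (-(619 / 3200))) x)).add (hpow 4 (d ^ 2 * (3571 / 4000)) x)).add (hpow 6 (d ^ 2 * (-(1571 / 1400))) x)).add (hpow 8 (d ^ 2 * (-(143 / 450))) x)
    refine k.congr_deriv ?_
    unfold Qe Aq
    simp only [hh, yl, yu, ph22]
    push_cast
    ring
  have hc : Continuous fun x : ℝ => ph22 x * Qe E d x := by
    have := Qe_cont E d
    have := ph22_cont
    fun_prop
  rw [intervalIntegral.integral_eq_sub_of_hasDerivAt hd (hc.intervalIntegrable _ _)]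
  ring

theorem int_Qfd (E d : ℝ) : ∫ x in (0 : ℝ)..(1 / 2), (1 - 7 / 8 * x) * Qe E d x =
    2083380604099 / 51609600000000 - 866664668509 / 3985293312000 * E - (55933 / 320000 * E ^ 2 + 2492603 / 322560000 * d ^ 2) := by
  have hd : ∀ x ∈ uIcc (0 : ℝ) (1 / 2), HasDerivAt (fun x : ℝ =>
      (82676230207 / 576000000000) * x ^ 1 +
      (-(578733611449 / 9216000000000)) * x ^ 2 +
      (-(38321537621 / 216000000000)) * x ^ 3 +
      (268250763347 / 2304000000000) * x ^ 4 +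
      (-(1848415379 / 36000000000)) * x ^ 5 +
      (12938907653 / 345600000000) * x ^ 6 +
      (90972793 / 3150000000) * x ^ 7 +
      (-(636809551 / 28800000000)) * x ^ 8 +
      (85426207 / 1350000000) * x ^ 9 +
      (-(597983449 / 12000000000)) * x ^ 10 +
      (1593163 / 93750000) * x ^ 11 +
      (-(122673551 / 9000000000)) * x ^ 12 +
      (224939 / 140625000) * x ^ 13 +
      (-(2924207 / 2250000000)) * x ^ 14 +
      (E * (-(18080471 / 34560000))) * x ^ 1 +
      (E * (126563297 / 552960000)) * x ^ 2 +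
      (E * (-(3194387 / 12960000))) * x ^ 3 +
      (E * (22360709 / 138240000)) * x ^ 4 +
      (E * (253369 / 720000)) * x ^ 5 +
      (E * (-(1773583 / 6912000))) * x ^ 6 +
      (E * (18751 / 189000)) * x ^ 7 +
      (E * (-(131257 / 1728000))) * x ^ 8 +
      (E * (25307 / 243000)) * x ^ 9 +
      (E * (-(177149 / 2160000))) * x ^ 10 +
      (E * (119 / 6875)) * x ^ 11 +
      (E * (-(833 / 60000))) * x ^ 12 +
      (E * (54 / 8125)) * x ^ 13 +
      (E * (-(27 / 5000))) * x ^ 14 +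
      (E ^ 2 * (-(619 / 1000))) * x ^ 1 +
      (E ^ 2 * (4333 / 16000)) * x ^ 2 +
      (E ^ 2 * (857 / 1125)) * x ^ 3 +
      (E ^ 2 * (-(5999 / 12000))) * x ^ 4 +
      (E ^ 2 * (286 / 1875)) * x ^ 5 +
      (E ^ 2 * (-(1001 / 9000))) * x ^ 6 +
      (d ^ 2 * (-(619 / 3000))) * x ^ 3 +
      (d ^ 2 * (4333 / 32000)) * x ^ 4 +
      (d ^ 2 * (857 / 1875)) * x ^ 5 +
      (d ^ 2 * (-(5999 / 18000))) * x ^ 6 +
      (d ^ 2 * (286 / 2625)) * x ^ 7 +
      (d ^ 2 * (-(1001 / 12000))) * x ^ 8)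
      ((1 - 7 / 8 * x) * Qe E d x) x := by
    intro x _
    have k := ((((((((((((((((((((((((((((((((((((((((hpow 0 (82676230207 / 576000000000) x)).add (hpow 1 (-(578733611449 / 9216000000000)) x)).add (hpow 2 (-(38321537621 / 216000000000)) x)).add (hpow 3 (268250763347 / 2304000000000) x)).add (hpow 4 (-(1848415379 / 36000000000)) x)).add (hpow 5 (12938907653 / 345600000000) x)).add (hpow 6 (90972793 / 3150000000) x)).add (hpow 7 (-(636809551 / 28800000000)) x)).add (hpow 8 (85426207 / 1350000000) x)).add (hpow 9 (-(597983449 / 12000000000)) x)).add (hpow 10 (1593163 / 93750000) x)).add (hpow 11 (-(122673551 / 9000000000)) x)).add (hpow 12 (224939 / 140625000) x)).add (hpow 13 (-(2924207 / 2250000000)) x)).add (hpow 0 (E * (-(18080471 / 34560000))) x)).add (hpow 1 (E * (126563297 / 552960000)) x)).add (hpow 2 (E * (-(3194387 / 12960000))) x)).add (hpow 3 (E * (22360709 / 138240000)) x)).add (hpow 4 (E * (253369 / 720000)) x)).add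 (hpow 5 (E * (-(1773583 / 6912000))) x)).add (hpow 6 (E * (18751 / 189000)) x)).add (hpow 7 (E * (-(131257 / 1728000))) x)).add (hpow 8 (E * (25307 / 243000)) x)).add (hpow 9 (E * (-(177149 / 2160000))) x)).add (hpow 10 (E * (119 / 6875)) x)).add (hpow 11 (E * (-(833 / 60000))) x)).add (hpow 12 (E * (54 / 8125)) x)).add (hpow 13 (E * (-(27 / 5000))) x)).add (hpow 0 (E ^ 2 * (-(619 / 1000))) x)).add (hpow 1 (E ^ 2 * (4333 / 16000)) x)).add (hpow 2 (E ^ 2 * (857 / 1125)) x)).add (hpow 3 (E ^ 2 * (-(5999 / 12000))) x)).add (hpow 4 (E ^ 2 * (286 / 1875)) x)).add (hpow 5 (E ^ 2 * (-(1001 / 9000))) x)).add (hpow 2 (d ^ 2 * (-(619 / 3000))) x)).add (hpow 3 (d ^ 2 * (4333 / 32000)) x)).add (hpow 4 (d ^ 2 * (857 / 1875)) x)).add (hpow 5 (d ^ 2 * (-(5999 / 18000))) x)).add (hpow 6 (d ^ 2 * (286 / 2625)) x)).add (hpow 7 (d ^ 2 * (-(1001 / 12000))) x)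
    refine k.congr_deriv ?_
    unfold Qe Aq
    simp only [hh, yl, yu]
    push_cast
    ring
  have hc : Continuous fun x : ℝ => (1 - 7 / 8 * x) * Qe E d x := by
    have := Qe_cont E d
    fun_prop
  rw [intervalIntegral.integral_eq_sub_of_hasDerivAt hd (hc.intervalIntegrable _ _)]
  ring

theorem int_ph (sg d : ℝ) : ∫ x in (-(1 / 2) : ℝ)..(1 / 2), ph22 x * Pq sg d x =
    10744844939 / 297000000000 - 50682629 / 294840000 * (0.5774 * sg) -
      (6571 / 42000 * (0.5774 * sg) ^ 2 + 2857 / 504000 * d ^ 2) := by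
  rw [int_half ph22_cont (fun x => by unfold ph22; ring) (Pq_cont sg d), ← int_Qph]
  refine intervalIntegral.integral_congr fun x _ => ?_
  rw [Qe_eq]

theorem int_fdP (sg d : ℝ) : ∫ x in (-(1 / 2) : ℝ)..(1 / 2), fd x * Pq sg d x =
    2083380604099 / 51609600000000 - 866664668509 / 3985293312000 * (0.5774 * sg) -
      (55933 / 320000 * (0.5774 * sg) ^ 2 + 2492603 / 322560000 * d ^ 2) := by
  rw [int_half fd_cont (fun x => by unfold fd; rw [abs_neg]) (Pq_cont sg d), ← int_Qfd]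
  refine intervalIntegral.integral_congr fun x hx => ?_
  rw [uIcc_of_le (by norm_num)] at hx
  rw [Qe_eq]
  unfold fd
  rw [abs_of_nonneg hx.1]

/-- the constant -/
theorem kaB : 2.13198 ≤ ka * √3 := by
  obtain ⟨_, t2, _⟩ := Helper93.MEI.Blk.s3b
  have h1 := ka_lo
  calc (2.13198 : ℝ) ≤ 1.2309 * 1.73205 := by norm_num
    _ ≤ ka * √3 := mul_le_mul h1 t2.le (by norm_num) (by linarith)

/-- use of the constant -/
theorem kaI {I M : ℝ} (h0 : 0 ≤ M) (h : ka * (√3 * I) ≤ M) : 2.13198 * I ≤ M := by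
  rcases le_total 0 I with hI | hI
  · have := mul_le_mul_of_nonneg_right kaB hI
    linarith
  · linarith

/-! ### all six edges -/

section six
variable {a : Fin 4 → E3} {K : Set E3} {σ : Measure (E3 × E3)}
  [IsFiniteMeasure σ] (h : PM K σ) (ha : ∀ i j, i ≠ j → dist (a i) (a j) = 1)
  (hull : ∀ p, (∀ q ∈ K, ‖p - q‖ ≤ 1) → p ∈ K) (hp : ∀ x ∈ K, Pl a x)
  {B : Fin 3 → Bool → OrthonormalBasis (Fin 3) ℝ E3}
  (hB : ∀ m e, Fr (fun i => a (pr m e i)) (B m e)) {S : Fin 4 → ℝ} (hS0 : ∀ i, 0 ≤ S i)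
  (hQ : ∀ i, ∀ q ∈ K, Qv a i q ≤ S i) (m : Fin 3) (e : Bool)

include h ha hull hp hB hS0 hQ in
/-- **mass of the weighted cell**, general profile -/
theorem massR_all {φ : ℝ → ℝ} {φn : ℕ → ℝ → ℝ} (hw : Wgt φ φn)
    (hφ : ∀ X : ℝ, |X| ≤ 1 / 2 → 0 ≤ φ X) :
    2.13198 * (∫ x in (-(1 / 2) : ℝ)..(1 / 2), φ x *
        Pq (S (pf m e 0) + S (pf m e 1)) (S (pf m e 0) - S (pf m e 1)) x) ≤
      ∫ z in Helper37.MEI.EE a m e, wF φ (Helper37.MEI.ap a m e) z.1 ∂σ := by
  have ha' := Helper37.MEI.hap ha m e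
  have hb : Fr (Helper37.MEI.ap a m e) (B m e) := hB m e
  have hcomp : ∀ p : E3, (∀ q ∈ K, dist p q ≤ 1) → p ∈ K := fun p hpp =>
    hull p fun q hq => by rw [← dist_eq_norm]; exact hpp q hq
  have hp' : ∀ x ∈ K, Pl (Helper37.MEI.ap a m e) x := fun x hx => Pl_perm _ (hp x hx)
  have hQ' : ∀ x ∈ K, ∀ j, Qv (Helper37.MEI.ap a m e) j x ≤ S (pf m e j) :=
    fun x hx j => hQ (pf m e j) x hx
  have hS' : ∀ j, 0 ≤ S (pf m e j) := fun j => hS0 _
  have hBo := Helper21.Alp.bod ha' hcomp hp' hb hQ' hS'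
  have hsl := slab_co ha' hp' hb
  have hd : ∀ᵐ z ∂σ, ‖z.1 - z.2‖ ≤ 1 := by
    filter_upwards [h.ae] with z hz
    exact hz.2.2.1.le
  have h1 := radP h.cpt h.mem hd h.flux hBo hsl hw
  have e1 : ∫ z in {z : E3 × E3 | z.1 ∈ EC (B m e) (cen (Helper37.MEI.ap a m e))},
      omF φ (co (B m e) (cen (Helper37.MEI.ap a m e)) z.1) ∂σ =
      ∫ z in Helper37.MEI.EE a m e, wF φ (Helper37.MEI.ap a m e) z.1 ∂σ := by
    change _ = ∫ z in Zp (Helper37.MEI.ap a m e) 2 3, wF φ (Helper37.MEI.ap a m e) z.1 ∂σ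
    rw [← Helper21.Alp.Zp_eq ha' hb]
    refine integral_congr_ae (Eventually.of_forall fun z => ?_)
    exact (wF_om ha' hb φ z.1).symm
  have h0 : 0 ≤ ∫ z in Helper37.MEI.EE a m e, wF φ (Helper37.MEI.ap a m e) z.1 ∂σ := by
    refine integral_nonneg_of_ae ?_
    filter_upwards [ae_restrict_of_ae h.ae] with z hz
    have hX := (pl_e (gram_of_dist ha') (hp' _ hz.1)).2.1
    have hD := Pool.Agent.Helper8.MEI.DD_pos (eX (Helper37.MEI.ap a m e) z.1)
      (eY (Helper37.MEI.ap a m e) z.1) (eW (Helper37.MEI.ap a m e) z.1)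
    exact div_nonneg (hφ _ hX) (by positivity)
  rw [e1] at h1
  exact kaI h0 h1

include h ha hull hp hB hS0 hQ in
/-- **mass of the coupling density, profile `ph22`, version 2** -/
theorem mass_ph2 : 0.07713 - 0.21162 * (S (pf m e 0) + S (pf m e 1)) -
    (0.11121 * (S (pf m e 0) + S (pf m e 1)) ^ 2 +
      0.01209 * (S (pf m e 0) - S (pf m e 1)) ^ 2) ≤ p0 ph22 σ (Helper37.MEI.ap a m e) := by
  have h1 := massR_all h ha hull hp hB hS0 hQ m e MassLo.wgt_ph ph22_nonneg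
  rw [int_ph] at h1
  have e1 : ∫ z in Helper37.MEI.EE a m e, wF ph22 (Helper37.MEI.ap a m e) z.1 ∂σ =
      p0 ph22 σ (Helper37.MEI.ap a m e) := by
    unfold p0 dp wF rh
    refine integral_congr_ae (Eventually.of_forall fun z => ?_)
    simp only
    rw [div_eq_mul_inv]
  rw [e1] at h1
  refine le_trans ?_ h1
  have k0 := hS0 (pf m e 0)
  have k1 := hS0 (pf m e 1)
  generalize S (pf m e 0) = x0 at *
  generalize S (pf m e 1) = x1 at *
  have q1 : 0 ≤ (x0 + x1) ^ 2 := by positivity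
  have q2 : 0 ≤ (x0 - x1) ^ 2 := by positivity
  have e2 : (0.5774 * (x0 + x1)) ^ 2 = 0.33339076 * (x0 + x1) ^ 2 := by ring
  rw [e2]
  linarith

include h ha hull hp hB hS0 hQ in
/-- **mass of the coupling density, profile `1 - 7|x|/8`, version 2** -/
theorem mass_fd2 : 0.08606 - 0.26771 * (S (pf m e 0) + S (pf m e 1)) -
    (0.12424 * (S (pf m e 0) + S (pf m e 1)) ^ 2 +
      0.01648 * (S (pf m e 0) - S (pf m e 1)) ^ 2) ≤
    ∫ z in Helper37.MEI.EE a m e, Helper49.Cpl.de (Helper37.MEI.ap a m e) z ∂σ := by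
  have h1 := massR_all h ha hull hp hB hS0 hQ m e wgt_fd
    (fun X hX => by unfold fd; linarith)
  rw [int_fdP] at h1
  have e1 : ∫ z in Helper37.MEI.EE a m e, wF fd (Helper37.MEI.ap a m e) z.1 ∂σ =
      ∫ z in Helper37.MEI.EE a m e, Helper49.Cpl.de (Helper37.MEI.ap a m e) z ∂σ := by
    refine integral_congr_ae (Eventually.of_forall fun z => ?_)
    exact wF_fd z
  rw [e1] at h1
  refine le_trans ?_ h1
  have k0 := hS0 (pf m e 0)
  have k1 := hS0 (pf m e 1)
  generalize S (pf m e 0) = x0 at *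
  generalize S (pf m e 1) = x1 at *
  have q1 : 0 ≤ (x0 + x1) ^ 2 := by positivity
  have q2 : 0 ≤ (x0 - x1) ^ 2 := by positivity
  have e2 : (0.5774 * (x0 + x1)) ^ 2 = 0.33339076 * (x0 + x1) ^ 2 := by ring
  rw [e2]
  linarith

include h ha hull hp hB hS0 hQ in
/-- the sum row: the two numbers of one end pair, version 2 -/
theorem mp_sum_ge2 : 0.07713 - 0.21162 * (S (pf m (!e) 0) + S (pf m (!e) 1)) -
    (0.11121 * (S (pf m (!e) 0) + S (pf m (!e) 1)) ^ 2 +
      0.01209 * (S (pf m (!e) 0) - S (pf m (!e) 1)) ^ 2) ≤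
    mp ph22 σ a m e false + mp ph22 σ a m e true := by
  refine (mass_ph2 h ha hull hp hB hS0 hQ m (!e)).trans (le_of_eq ?_)
  unfold mp
  simp only [Bool.false_eq_true, if_false, if_true]
  ring

end six

end Helper63.Rad
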