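import Pool.Agent.Helper63.MEI.MassLo2

/-!
# Project MEI (M2): mass of the weighted cell from below, III: numbers, all six edges

Profiles `ph22 = 15/16 (1 - 4 x²)` and `fd = 1 - 7|x|/8`.
-/

set_option autoImplicit false

namespace Helper63.MassLo

open Set MeasureTheory Filter Topology Metric
open Helper80.CW Helper22.Wedge Helper22.Sig Helper14.CW Helper14.MEI2 Helper93.MEI
open Helper22.MEI (s t FD FD_pos)
open Helper21.Sec Helper21.Mom Helper53.MEI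
open Pool.Agent.Helper95.MEI.Fub (Zp int_cont Zp_meas co_e)
open Pool.Agent.Helper73.MEI
open Helper49.Cpl (ph22 ph22_cont ph22_nonneg p0 dp rh mp)
open scoped RealInnerProductSpace ContDiff Real

/-! ### the profile `ph22` -/

theorem wgt_ph : Wgt ph22 (fun _ => ph22) where
  sn _ := by unfold ph22; fun_prop
  hn _ X hX := by
    refine ⟨ph22_nonneg X hX, ?_⟩
    unfold ph22
    have := sq_nonneg X
    linarith
  hl _ := tendsto_const_nhds

theorem int_phPlo : ∫ x in (-(1 / 2) : ℝ)..(1 / 2), ph22 x * Plo2 x = 375391 / 9979200 := by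
  have hd : ∀ x ∈ uIcc (-(1 / 2) : ℝ) (1 / 2), HasDerivAt (fun x : ℝ =>
      (1449 / 20480) * x ^ 1 + (-(105253 / 552960)) * x ^ 3 + (13393 / 57600) * x ^ 5 +
      (-(73 / 13440)) * x ^ 7 + (11 / 810) * x ^ 9 + (-(397 / 7920)) * x ^ 11)
      (ph22 x * Plo2 x) x := by
    intro x _
    have k := (((((hpow 0 (1449 / 20480) x).add (hpow 2 (-(105253 / 552960)) x)).add
      (hpow 4 (13393 / 57600) x)).add (hpow 6 (-(73 / 13440)) x)).add
      (hpow 8 (11 / 810) x)).add (hpow 10 (-(397 / 7920)) x)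
    refine k.congr_deriv ?_
    unfold ph22 Plo2
    push_cast
    ring
  rw [intervalIntegral.integral_eq_sub_of_hasDerivAt hd
    ((by unfold ph22 Plo2; fun_prop : Continuous fun x : ℝ =>
      ph22 x * Plo2 x).intervalIntegrable _ _)]
  norm_num

theorem int_phlin (e d : ℝ) : ∫ x in (-(1 / 2) : ℝ)..(1 / 2),
    ph22 x * ((e + d * x) * (1 - x ^ 2 / 2)) = 39 / 64 * e := by
  have hd : ∀ x ∈ uIcc (-(1 / 2) : ℝ) (1 / 2), HasDerivAt (fun x : ℝ =>
      (15 / 16 * e) * x ^ 1 + (15 / 32 * d) * x ^ 2 + (-(45 / 32) * e) * x ^ 3 +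
      (-(135 / 128) * d) * x ^ 4 + (3 / 8 * e) * x ^ 5 + (5 / 16 * d) * x ^ 6)
      (ph22 x * ((e + d * x) * (1 - x ^ 2 / 2))) x := by
    intro x _
    have k := (((((hpow 0 (15 / 16 * e) x).add (hpow 1 (15 / 32 * d) x)).add
      (hpow 2 (-(45 / 32) * e) x)).add (hpow 3 (-(135 / 128) * d) x)).add
      (hpow 4 (3 / 8 * e) x)).add (hpow 5 (5 / 16 * d) x)
    refine k.congr_deriv ?_
    unfold ph22
    push_cast
    ring
  rw [intervalIntegral.integral_eq_sub_of_hasDerivAt hd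
    ((by unfold ph22; fun_prop : Continuous fun x : ℝ =>
      ph22 x * ((e + d * x) * (1 - x ^ 2 / 2))).intervalIntegrable _ _)]
  ring

theorem JGl_ph (s1 s2 : ℝ) : JGl ph22 s1 s2 = √2 * (375391 / 9979200) -
    √2 / 3 * (39 / 64 * (0.5774 * (s1 + s2))) := by
  unfold JGl
  rw [int_phlin, int_phPlo]

theorem Cs_ph (s' : ℝ) : Cs ph22 s' = 1 / 168 + 9 / 112 * s' + 3 / 8 * s' ^ 2 +
    5 / 8 * s' ^ 3 := by
  have hd : ∀ x ∈ uIcc (-(1 / 2) : ℝ) (1 / 2), HasDerivAt (fun x : ℝ =>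
      (15 / 16 * (1 / 4 + s') ^ 3) * x ^ 1 +
      (15 / 16 * (-(4 / 3) * (1 / 4 + s') ^ 3 - (1 / 4 + s') ^ 2)) * x ^ 3 +
      (15 / 16 * (3 / 5 * (1 / 4 + s') + 12 / 5 * (1 / 4 + s') ^ 2)) * x ^ 5 +
      (15 / 16 * (-(1 / 7) - 12 / 7 * (1 / 4 + s'))) * x ^ 7 +
      (15 / 16 * (4 / 9)) * x ^ 9)
      (ph22 x * Rs s' x ^ 3) x := by
    intro x _
    have k := ((((hpow 0 (15 / 16 * (1 / 4 + s') ^ 3) x).add
      (hpow 2 (15 / 16 * (-(4 / 3) * (1 / 4 + s') ^ 3 - (1 / 4 + s') ^ 2)) x)).add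
      (hpow 4 (15 / 16 * (3 / 5 * (1 / 4 + s') + 12 / 5 * (1 / 4 + s') ^ 2)) x)).add
      (hpow 6 (15 / 16 * (-(1 / 7) - 12 / 7 * (1 / 4 + s'))) x)).add
      (hpow 8 (15 / 16 * (4 / 9)) x)
    refine k.congr_deriv ?_
    unfold ph22 Rs
    push_cast
    ring
  unfold Cs
  rw [intervalIntegral.integral_eq_sub_of_hasDerivAt hd
    ((by unfold ph22 Rs; fun_prop : Continuous fun x : ℝ =>
      ph22 x * Rs s' x ^ 3).intervalIntegrable _ _)]
  ring

/-! ### the profile `1 - 7|x|/8` -/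

theorem Cs_fd (s' : ℝ) : Cs fd s' = (1 / 140 - 7 / 8192) + 3 * s' * (1 / 30 - 7 / 1536) +
    3 * s' ^ 2 * (1 / 6 - 7 / 256) + 25 / 32 * s' ^ 3 := by
  have cE : Continuous fun x : ℝ => Rs s' x ^ 3 := by unfold Rs; fun_prop
  unfold Cs
  rw [int_fd cE (fun x => by unfold Rs; rw [neg_sq])]
  have hd : ∀ x ∈ uIcc (0 : ℝ) (1 / 2), HasDerivAt (fun x : ℝ =>
      ((1 / 4 + s') ^ 3) * x ^ 1 + (-(7 / 16) * (1 / 4 + s') ^ 3) * x ^ 2 +
      (-(1 / 4 + s') ^ 2) * x ^ 3 + (21 / 32 * (1 / 4 + s') ^ 2) * x ^ 4 +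
      (3 / 5 * (1 / 4 + s')) * x ^ 5 + (-(7 / 16) * (1 / 4 + s')) * x ^ 6 +
      (-(1 / 7)) * x ^ 7 + (7 / 64) * x ^ 8)
      ((1 - 7 / 8 * x) * Rs s' x ^ 3) x := by
    intro x _
    have k := (((((((hpow 0 ((1 / 4 + s') ^ 3) x).add
      (hpow 1 (-(7 / 16) * (1 / 4 + s') ^ 3) x)).add (hpow 2 (-(1 / 4 + s') ^ 2) x)).add
      (hpow 3 (21 / 32 * (1 / 4 + s') ^ 2) x)).add (hpow 4 (3 / 5 * (1 / 4 + s')) x)).add
      (hpow 5 (-(7 / 16) * (1 / 4 + s')) x)).add (hpow 6 (-(1 / 7)) x)).add (hpow 7 (7 / 64) x)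
    refine k.congr_deriv ?_
    unfold Rs
    push_cast
    ring
  rw [intervalIntegral.integral_eq_sub_of_hasDerivAt hd
    ((by unfold Rs; fun_prop : Continuous fun x : ℝ =>
      (1 - 7 / 8 * x) * Rs s' x ^ 3).intervalIntegrable _ _)]
  ring

/-! ### all six edges -/

section six
variable {a : Fin 4 → E3} {K : Set E3} {σ : Measure (E3 × E3)}
  [IsFiniteMeasure σ] (h : PM K σ) (ha : ∀ i j, i ≠ j → dist (a i) (a j) = 1)
  (hull : ∀ p, (∀ q ∈ K, ‖p - q‖ ≤ 1) → p ∈ K) (hp : ∀ x ∈ K, Pl a x)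
  {B : Fin 3 → Bool → OrthonormalBasis (Fin 3) ℝ E3}
  (hB : ∀ m e, Fr (fun i => a (pr m e i)) (B m e)) {S : Fin 4 → ℝ} (hS0 : ∀ i, 0 ≤ S i)
  (hQ : ∀ i, ∀ q ∈ K, Qv a i q ≤ S i) (m : Fin 3) (e : Bool)

include h ha hull hp hB hS0 hQ in
/-- general profile -/
theorem massF_all {φ : ℝ → ℝ} {φn : ℕ → ℝ → ℝ} (hw : Wgt φ φn) (cφ : Continuous φ)
    (hφ : ∀ X : ℝ, |X| ≤ 1 / 2 → 0 ≤ φ X) :
    √2 * JGl φ (S (pf m e 0)) (S (pf m e 1)) -
      10 / 27 * (Cs φ (S (pf m e 2)) + Cs φ (S (pf m e 3))) ≤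
      ∫ z in Helper37.MEI.EE a m e, wF φ (Helper37.MEI.ap a m e) z.1 ∂σ := by
  have ha' := Helper37.MEI.hap ha m e
  have hb : Fr (Helper37.MEI.ap a m e) (B m e) := hB m e
  have hcomp : ∀ p : E3, (∀ q ∈ K, dist p q ≤ 1) → p ∈ K := fun p hpp =>
    hull p fun q hq => by rw [← dist_eq_norm]; exact hpp q hq
  have hp' : ∀ x ∈ K, Pl (Helper37.MEI.ap a m e) x := fun x hx => Pl_perm _ (hp x hx)
  have hQ' : ∀ x ∈ K, ∀ j, Qv (Helper37.MEI.ap a m e) j x ≤ S (pf m e j) :=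
    fun x hx j => hQ (pf m e j) x hx
  have hS' : ∀ j, 0 ≤ S (pf m e j) := fun j => hS0 _
  exact massF_ge ha' h hcomp hp' hb hQ' hS' hw cφ hφ

include h ha hull hp hB hS0 hQ in
/-- **mass of the coupling density, profile `ph22`** -/
theorem mass_ph : 0.07082 - 0.23457 * (S (pf m e 0) + S (pf m e 1)) -
    (0.02977 * (S (pf m e 2) + S (pf m e 3)) +
      0.1389 * (S (pf m e 2) ^ 2 + S (pf m e 3) ^ 2) +
      0.2315 * (S (pf m e 2) ^ 3 + S (pf m e 3) ^ 3)) ≤ p0 ph22 σ (Helper37.MEI.ap a m e) := by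
  have h1 := massF_all h ha hull hp hB hS0 hQ m e wgt_ph ph22_cont ph22_nonneg
  rw [JGl_ph, Cs_ph, Cs_ph] at h1
  have e1 : ∫ z in Helper37.MEI.EE a m e, wF ph22 (Helper37.MEI.ap a m e) z.1 ∂σ =
      p0 ph22 σ (Helper37.MEI.ap a m e) := by
    unfold p0 dp wF rh
    refine integral_congr_ae (Eventually.of_forall fun z => ?_)
    simp only
    rw [div_eq_mul_inv]
  rw [e1] at h1
  refine le_trans ?_ h1
  have r := r2
  have k0 := hS0 (pf m e 0)
  have k1 := hS0 (pf m e 1)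
  have k2 := hS0 (pf m e 2)
  have k3 := hS0 (pf m e 3)
  generalize S (pf m e 0) = x0 at *
  generalize S (pf m e 1) = x1 at *
  generalize S (pf m e 2) = x2 at *
  generalize S (pf m e 3) = x3 at *
  have e2 : √2 * (√2 * (375391 / 9979200) - √2 / 3 * (39 / 64 * (0.5774 * (x0 + x1)))) =
      2 * (375391 / 9979200) - 2 / 3 * (39 / 64 * (0.5774 * (x0 + x1))) := by
    linear_combination (375391 / 9979200 - 1 / 3 * (39 / 64 * (0.5774 * (x0 + x1)))) * r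
  rw [e2]
  have q2 : 0 ≤ x2 ^ 2 := by positivity
  have q3 : 0 ≤ x3 ^ 2 := by positivity
  have c2 : 0 ≤ x2 ^ 3 := by positivity
  have c3 : 0 ≤ x3 ^ 3 := by positivity
  linarith

include h ha hull hp hB hS0 hQ in
/-- **mass of the coupling density, profile `1 - 7|x|/8`** -/
theorem mass_fd : 0.07912 - 0.28996 * (S (pf m e 0) + S (pf m e 1)) -
    (0.03198 * (S (pf m e 2) + S (pf m e 3)) +
      0.15481 * (S (pf m e 2) ^ 2 + S (pf m e 3) ^ 2) +
      0.28936 * (S (pf m e 2) ^ 3 + S (pf m e 3) ^ 3)) ≤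
    ∫ z in Helper37.MEI.EE a m e, Helper49.Cpl.de (Helper37.MEI.ap a m e) z ∂σ := by
  have h1 := massF_all h ha hull hp hB hS0 hQ m e wgt_fd fd_cont
    (fun X hX => by unfold fd; linarith)
  rw [JGl_fd, Cs_fd, Cs_fd] at h1
  have e1 : ∫ z in Helper37.MEI.EE a m e, wF fd (Helper37.MEI.ap a m e) z.1 ∂σ =
      ∫ z in Helper37.MEI.EE a m e, Helper49.Cpl.de (Helper37.MEI.ap a m e) z ∂σ := by
    refine integral_congr_ae (Eventually.of_forall fun z => ?_)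
    exact wF_fd z
  rw [e1] at h1
  refine le_trans ?_ h1
  have r := r2
  have k0 := hS0 (pf m e 0)
  have k1 := hS0 (pf m e 1)
  have k2 := hS0 (pf m e 2)
  have k3 := hS0 (pf m e 3)
  generalize S (pf m e 0) = x0 at *
  generalize S (pf m e 1) = x1 at *
  generalize S (pf m e 2) = x2 at *
  generalize S (pf m e 3) = x3 at *
  have e2 : √2 * (2 * (√2 * (681479 / 27216000 - 7 / 8 * (517423 / 110592000)) -
      √2 / 3 * ((23 / 48 - 7 / 8 * (15 / 128)) * (0.5774 * (x0 + x1))))) =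
      4 * (681479 / 27216000 - 7 / 8 * (517423 / 110592000)) -
      4 / 3 * ((23 / 48 - 7 / 8 * (15 / 128)) * (0.5774 * (x0 + x1))) := by
    linear_combination (2 * (681479 / 27216000 - 7 / 8 * (517423 / 110592000)) -
      2 / 3 * ((23 / 48 - 7 / 8 * (15 / 128)) * (0.5774 * (x0 + x1)))) * r
  rw [e2]
  have q2 : 0 ≤ x2 ^ 2 := by positivity
  have q3 : 0 ≤ x3 ^ 2 := by positivity
  have c2 : 0 ≤ x2 ^ 3 := by positivity
  have c3 : 0 ≤ x3 ^ 3 := by positivity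
  linarith

include h ha hull hp hB hS0 hQ in
/-- the sum row: the two numbers of one end pair -/
theorem mp_sum_ge : 0.07082 - 0.23457 * (S (pf m (!e) 0) + S (pf m (!e) 1)) -
    (0.02977 * (S (pf m (!e) 2) + S (pf m (!e) 3)) +
      0.1389 * (S (pf m (!e) 2) ^ 2 + S (pf m (!e) 3) ^ 2) +
      0.2315 * (S (pf m (!e) 2) ^ 3 + S (pf m (!e) 3) ^ 3)) ≤
    mp ph22 σ a m e false + mp ph22 σ a m e true := by
  refine (mass_ph h ha hull hp hB hS0 hQ m (!e)).trans (le_of_eq ?_)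
  unfold mp
  simp only [Bool.false_eq_true, if_false, if_true]
  ring

end six

end Helper63.MassLo
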