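import Pool.Agent.Helper53.MEI.Mom6
import Pool.Agent.Helper37.MEI.Bulk3

/-!
# Project MEI (M2): mass of the weighted cell from below, I

Flux in the axial direction (sum of the two coordinate fluxes) and the volume term from above.
-/

set_option autoImplicit false

namespace Helper63.MassLo

open Set MeasureTheory Filter Topology Metric
open Helper80.CW Helper22.Wedge Helper22.Sig Helper14.CW Helper14.MEI2 Helper93.MEI
open Helper22.MEI (s t FD FD_pos)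
open Helper21.Sec Helper21.Mom Helper53.MEI
open scoped RealInnerProductSpace ContDiff Real

variable {b : OrthonormalBasis (Fin 3) ℝ E3} {c : E3}

/-! ### the flux -/

section
variable {σ : Measure (E3 × E3)} [IsFiniteMeasure σ] {K : Set E3} (hK : IsCompact K)
  (hσ : ∀ᵐ z ∂σ, z.1 ∈ K ∧ z.2 ∈ K)
  (hU : ∀ G : E3 → E3, ContDiff ℝ ∞ G → ∫ z, ⟪G z.1, z.1 - z.2⟫ ∂σ = ∫ x in K, dvg G x)
  {s1 s2 s3 s4 : ℝ} (h : Bod b c K s1 s2 s3 s4)

include hK hσ hU h in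
/-- sum of the two coordinate fluxes, smooth weight -/
theorem flux2G_le {φ : ℝ → ℝ} (sφ : ContDiff ℝ ∞ φ)
    (hφ : ∀ X : ℝ, |X| ≤ 1 / 2 → 0 ≤ φ X ∧ φ X ≤ 1) :
    (∫ z in {z | z.1 ∈ EC b c}, omF φ (co b c z.1) * ⟪be b 1, z.1 - z.2⟫ ∂σ) +
      (∫ z in {z | z.1 ∈ EC b c}, omF φ (co b c z.1) * ⟪be b (-1), z.1 - z.2⟫ ∂σ) ≤
      (∫ x in K ∩ EC b c, dG φ 1 (co b c x)) + (∫ x in K ∩ EC b c, dG φ (-1) (co b c x)) -
      2 * JGl φ s1 s2 := by
  have l1 := fluxG_lim (b := b) (c := c) hK hσ hU sφ (ε := 1) (Or.inl rfl)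
  have l2 := fluxG_lim (b := b) (c := c) hK hσ hU sφ (ε := -1) (Or.inr rfl)
  rw [neg_neg] at l2
  have l3 := l1.add l2
  have h1 := lim_inv
  have hlim : Tendsto (fun m : ℕ => -2 * (JGl φ s1 s2 - √2 * (1 / ((m : ℝ) + 1)) -
      √2 * (1 / ((m : ℝ) + 1)) - 4 * (1 / ((m : ℝ) + 1)))) atTop
      (𝓝 (-2 * JGl φ s1 s2)) := by
    have hc : Continuous (fun u : ℝ => -2 * (JGl φ s1 s2 - √2 * u - √2 * u - 4 * u)) := by
      fun_prop
    have h2 := (hc.tendsto 0).comp h1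
    refine h2.congr' ?_ |>.trans (le_of_eq ?_)
    · exact Eventually.of_forall fun m => rfl
    · congr 1
      ring
  have h3 := le_of_tendsto_of_tendsto' l3 hlim fun m => by
    have k1 := JG_lo sφ.continuous hφ hK h (ε := 1) (Or.inl rfl) m
    have k2 := JG_lo sφ.continuous hφ hK h (ε := -1) (Or.inr rfl) m
    linarith
  linarith

variable {φ : ℝ → ℝ} {φn : ℕ → ℝ → ℝ}

include hK hσ hU h in
/-- sum of the two coordinate fluxes -/
theorem flux2P_le (hw : Wgt φ φn) :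
    (∫ z in {z | z.1 ∈ EC b c}, omF φ (co b c z.1) * ⟪be b 1, z.1 - z.2⟫ ∂σ) +
      (∫ z in {z | z.1 ∈ EC b c}, omF φ (co b c z.1) * ⟪be b (-1), z.1 - z.2⟫ ∂σ) ≤
      (∫ x in K ∩ EC b c, dG φ 1 (co b c x)) + (∫ x in K ∩ EC b c, dG φ (-1) (co b c x)) -
      2 * JGl φ s1 s2 := by
  have cn : ∀ n, Continuous (φn n) := fun n => (hw.sn n).continuous
  refine le_of_tendsto_of_tendsto'
    ((lim_cell hK hσ h hw.sn hw.hn hw.hl 1).add (lim_cell hK hσ h hw.sn hw.hn hw.hl (-1)))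
    (((lim_vol hK h hw.sn hw.hn hw.hl 1).add (lim_vol hK h hw.sn hw.hn hw.hl (-1))).sub
      ((lim_JGl cn hw.hn hw.hl s1 s2).const_mul 2)) fun n => ?_
  exact flux2G_le hK hσ hU h (hw.sn n) (hw.hn n)

end

/-! ### the volume term from above -/

/-- coordinates `((X, ε Y), W - √2 ε Y)` -/
noncomputable def Ux (b : OrthonormalBasis (Fin 3) ℝ E3) (c : E3) (ε : ℝ) (x : E3) :
    (ℝ × ℝ) × ℝ :=
  (((co b c x).1, ε * (co b c x).2.1), ((co b c x).2.2 - √2 / 4) - √2 * (ε * (co b c x).2.1))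

/-- the linear change of coordinates -/
def Lu (κ τ ε : ℝ) (q : ℝ × ℝ × ℝ) : (ℝ × ℝ) × ℝ :=
  ((q.1, ε * q.2.1), (q.2.2 - τ) - κ * (ε * q.2.1))

theorem Lu_mp (κ τ : ℝ) {ε : ℝ} (hε : ε = 1 ∨ ε = -1) :
    MeasurePreserving (Lu κ τ ε) volume volume := by
  have h2 : MeasurePreserving (MeasurableEquiv.prodAssoc.symm : ℝ × ℝ × ℝ ≃ᵐ (ℝ × ℝ) × ℝ)
      volume volume := (measurePreserving_prodAssoc volume volume volume).symm _
  have h0 : MeasurePreserving (fun y : ℝ => ε * y) volume volume := by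
    rcases hε with h | h
    · rw [h]
      have : (fun y : ℝ => 1 * y) = id := by funext y; simp
      rw [this]
      exact MeasurePreserving.id _
    · rw [h]
      have : (fun y : ℝ => -1 * y) = Neg.neg := by funext y; simp
      rw [this]
      exact Measure.measurePreserving_neg (volume : Measure ℝ)
  have h3 : MeasurePreserving (Prod.map id (fun y : ℝ => ε * y) : ℝ × ℝ → ℝ × ℝ)
      volume volume := (MeasurePreserving.id volume).prod h0
  have h4 : MeasurePreserving (fun p : (ℝ × ℝ) × ℝ =>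
      ((Prod.map id (fun y : ℝ => ε * y) : ℝ × ℝ → ℝ × ℝ) p.1,
        (p.2 - τ) - κ * (ε * p.1.2))) volume volume := by
    have hm : Measurable (Function.uncurry fun (r : ℝ × ℝ) (z : ℝ) =>
        (z - τ) - κ * (ε * r.2)) := by
      have : Continuous (Function.uncurry fun (r : ℝ × ℝ) (z : ℝ) =>
          (z - τ) - κ * (ε * r.2)) := by
        unfold Function.uncurry
        fun_prop
      exact this.measurable
    refine h3.skew_product (g := fun (r : ℝ × ℝ) (z : ℝ) => (z - τ) - κ * (ε * r.2)) hm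
      (ae_of_all _ fun r => ?_)
    have h5 := (measurePreserving_sub_right (volume : Measure ℝ) (τ + κ * (ε * r.2))).map_eq
    have h6 : (fun z : ℝ => (z - τ) - κ * (ε * r.2)) = fun z => z - (τ + κ * (ε * r.2)) := by
      funext z; ring
    rw [h6]
    exact h5
  exact h4.comp h2

theorem Ux_mp {ε : ℝ} (hε : ε = 1 ∨ ε = -1) : MeasurePreserving (Ux b c ε) volume volume :=
  (Lu_mp (√2) (√2 / 4) hε).comp (co_mp b c)

theorem Ux_cont (ε : ℝ) : Continuous (Ux b c ε) := by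
  have h := (co_cd b c).continuous
  unfold Ux
  fun_prop

theorem Ux_inj {ε : ℝ} (hε : ε = 1 ∨ ε = -1) : Function.Injective (Ux b c ε) := by
  intro x y h
  apply co_inj b c
  have h1 : (co b c x).1 = (co b c y).1 := congrArg (fun q : (ℝ × ℝ) × ℝ => q.1.1) h
  have h2 : ε * (co b c x).2.1 = ε * (co b c y).2.1 :=
    congrArg (fun q : (ℝ × ℝ) × ℝ => q.1.2) h
  have h3 : ((co b c x).2.2 - √2 / 4) - √2 * (ε * (co b c x).2.1) =
    ((co b c y).2.2 - √2 / 4) - √2 * (ε * (co b c y).2.1) :=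
    congrArg (fun q : (ℝ × ℝ) × ℝ => q.2) h
  rw [h2] at h3
  have h4 : (co b c x).2.1 = (co b c y).2.1 := by
    rcases hε with h | h <;> rw [h] at h2 <;> linarith
  exact Prod.ext h1 (Prod.ext h4 (by linarith))

theorem Ux_emb {ε : ℝ} (hε : ε = 1 ∨ ε = -1) : MeasurableEmbedding (Ux b c ε) :=
  (Ux_cont ε).measurableEmbedding (Ux_inj hε)

theorem int_Ux {ε : ℝ} (hε : ε = 1 ∨ ε = -1) (K : Set E3) (F : (ℝ × ℝ) × ℝ → ℝ) :
    ∫ x in K, F (Ux b c ε x) = ∫ p in Ux b c ε '' K, F p := by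
  have h := (Ux_mp (b := b) (c := c) hε).setIntegral_preimage_emb (Ux_emb hε) F
    (Ux b c ε '' K)
  rwa [(Ux_inj hε).preimage_image] at h

/-- the section radius -/
noncomputable def Rs (s' X : ℝ) : ℝ := 1 / 4 - X ^ 2 + s'

theorem Rs_cont (s' : ℝ) : Continuous (Rs s') := by unfold Rs; fun_prop

theorem Rs_bd {s' X : ℝ} (hs : 0 ≤ s') (hX : |X| ≤ 1 / 2) : 0 ≤ Rs s' X ∧
    Rs s' X ≤ 1 / 4 + s' := by
  obtain ⟨h1, h2⟩ := abs_le.1 hX
  unfold Rs
  constructor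
  · nlinarith
  · nlinarith [sq_nonneg X]

/-- base of the region -/
def Bs (s' : ℝ) : Set (ℝ × ℝ) :=
  regionBetween (fun _ => (0 : ℝ)) (fun X => Rs s' X / 3) (Ioc (-(1 / 2)) (1 / 2))

/-- height of the region -/
noncomputable def Hs (s' : ℝ) (r : ℝ × ℝ) : ℝ := √2 / 2 * (Rs s' r.1 - 3 * r.2)

/-- the region -/
def Gs (s' : ℝ) : Set ((ℝ × ℝ) × ℝ) := regionBetween (fun _ => (0 : ℝ)) (Hs s') (Bs s')

/-- the integrand -/
noncomputable def Fs (φ : ℝ → ℝ) (p : (ℝ × ℝ) × ℝ) : ℝ := φ p.1.1 * (8 * (p.2 + √2 * p.1.2))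

theorem Hs_cont (s' : ℝ) : Continuous (Hs s') := by
  have := Rs_cont s'
  unfold Hs
  fun_prop

theorem Fs_cont {φ : ℝ → ℝ} (cφ : Continuous φ) : Continuous (Fs φ) := by
  unfold Fs
  fun_prop

theorem Bs_meas (s' : ℝ) : MeasurableSet (Bs s') :=
  measurableSet_regionBetween measurable_const ((Rs_cont s').div_const 3).measurable
    measurableSet_Ioc

theorem Bs_bdd {s' : ℝ} (hs : 0 ≤ s') : Bornology.IsBounded (Bs s') := by
  refine ((isBounded_Icc (-(1 / 2) : ℝ) (1 / 2)).prod (isBounded_Icc (0 : ℝ) (1 + s'))).subset ?_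
  rintro ⟨X, y⟩ ⟨h1, h2⟩
  simp only [mem_Ioc, mem_Ioo] at h1 h2
  have h3 := (Rs_bd hs (abs_le.2 ⟨h1.1.le, h1.2⟩)).2
  exact ⟨⟨h1.1.le, h1.2⟩, ⟨h2.1.le, by simp only; linarith [h2.2]⟩⟩

theorem Gs_bdd {s' : ℝ} (hs : 0 ≤ s') : Bornology.IsBounded (Gs s') := by
  refine ((Bs_bdd hs).prod (isBounded_Icc (0 : ℝ) (1 + s'))).subset ?_
  rintro ⟨⟨X, y⟩, l⟩ ⟨h1, h2⟩
  refine ⟨h1, ?_⟩
  obtain ⟨h1, h3⟩ := h1
  simp only [mem_Ioc, mem_Ioo] at h1 h2 h3
  have h4 := (Rs_bd hs (abs_le.2 ⟨h1.1.le, h1.2⟩)).2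
  refine ⟨h2.1.le, ?_⟩
  have h5 := h2.2
  unfold Hs at h5
  simp only at h5 ⊢
  have hr : √2 ≤ 2 := by
    rw [Real.sqrt_le_left (by norm_num)]; norm_num
  have h6 : √2 / 2 * (Rs s' X - 3 * y) ≤ 1 * (Rs s' X - 3 * y) := by
    refine mul_le_mul_of_nonneg_right (by linarith) ?_
    linarith [h3.2]
  linarith [h3.1]

/-- **the integral over the region** -/
theorem Gs_int {φ : ℝ → ℝ} (cφ : Continuous φ) {s' : ℝ} (hs : 0 ≤ s') :
    ∫ p in Gs s', Fs φ p = 10 / 27 * ∫ x in (-(1 / 2) : ℝ)..(1 / 2), φ x * Rs s' x ^ 3 := by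
  have r := r2
  obtain ⟨_, h1⟩ := Helper37.Bulk.int_reg2 (Hs_cont s') (Bs_meas s') (Fs_cont cφ) (Gs_bdd hs)
  have hG : Gs s' = regionBetween (fun _ => (0 : ℝ)) (Hs s') (Bs s') := rfl
  rw [hG, h1]
  have e1 : ∀ q ∈ Bs s', ∫ l in Ioo 0 (Hs s' q), Fs φ (q, l) =
      φ q.1 * (2 * (Rs s' q.1 - 3 * q.2) * (Rs s' q.1 + q.2)) := by
    rintro ⟨X, y⟩ ⟨hq1, hq2⟩
    simp only [mem_Ioc, mem_Ioo] at hq1 hq2
    have h0 : 0 ≤ Hs s' (X, y) := by
      unfold Hs
      simp only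
      exact mul_nonneg (by positivity) (by linarith [hq2.2])
    rw [← integral_Ioc_eq_integral_Ioo, ← intervalIntegral.integral_of_le h0]
    have hd : ∀ l ∈ uIcc (0 : ℝ) (Hs s' (X, y)), HasDerivAt (fun l : ℝ =>
        φ X * (4 * l ^ 2 + 8 * (√2 * y) * l)) (Fs φ ((X, y), l)) l := by
      intro l _
      have k := (((hasDerivAt_pow 2 l).const_mul 4).add
        ((hasDerivAt_id l).const_mul (8 * (√2 * y)))).const_mul (φ X)
      refine k.congr_deriv ?_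
      unfold Fs
      push_cast
      ring
    have hc : Continuous fun l : ℝ => Fs φ ((X, y), l) := by
      unfold Fs
      fun_prop
    rw [intervalIntegral.integral_eq_sub_of_hasDerivAt hd (hc.intervalIntegrable _ _)]
    unfold Hs
    simp only
    linear_combination (φ X * ((Rs s' X - 3 * y) ^ 2 + 4 * y * (Rs s' X - 3 * y))) * r
  have h2 : ∫ q in Bs s', ∫ l in Ioo 0 (Hs s' q), Fs φ (q, l) =
      ∫ q in Bs s', φ q.1 * (2 * (Rs s' q.1 - 3 * q.2) * (Rs s' q.1 + q.2)) :=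
    setIntegral_congr_fun (Bs_meas s') e1
  rw [h2]
  have cR := Rs_cont s'
  have cH : Continuous fun q : ℝ × ℝ =>
      φ q.1 * (2 * (Rs s' q.1 - 3 * q.2) * (Rs s' q.1 + q.2)) := by fun_prop
  obtain ⟨_, h3⟩ := int_reg (f := fun _ => (0 : ℝ)) (g := fun X => Rs s' X / 3)
    (s := Ioc (-(1 / 2)) (1 / 2)) continuous_const (cR.div_const 3) measurableSet_Ioc cH
    (Bs_bdd hs)
  have hB : Bs s' = regionBetween (fun _ => (0 : ℝ)) (fun X => Rs s' X / 3)
    (Ioc (-(1 / 2)) (1 / 2)) := rfl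
  rw [hB, h3, intervalIntegral.integral_of_le (by norm_num), ← integral_const_mul]
  refine setIntegral_congr_fun measurableSet_Ioc fun x hx => ?_
  have h0 : 0 ≤ Rs s' x / 3 := by
    have := (Rs_bd hs (abs_le.2 ⟨hx.1.le, hx.2⟩)).1
    positivity
  simp only
  rw [← integral_Ioc_eq_integral_Ioo, ← intervalIntegral.integral_of_le h0]
  have hd : ∀ y ∈ uIcc (0 : ℝ) (Rs s' x / 3), HasDerivAt (fun y : ℝ =>
      φ x * (2 * (Rs s' x ^ 2 * y - Rs s' x * y ^ 2 - y ^ 3)))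
      (φ x * (2 * (Rs s' x - 3 * y) * (Rs s' x + y))) y := by
    intro y _
    have k := (((((hasDerivAt_id y).const_mul (Rs s' x ^ 2)).sub
      ((hasDerivAt_pow 2 y).const_mul (Rs s' x))).sub (hasDerivAt_pow 3 y)).const_mul 2).const_mul
      (φ x)
    refine k.congr_deriv ?_
    push_cast
    ring
  have hc : Continuous fun y : ℝ => φ x * (2 * (Rs s' x - 3 * y) * (Rs s' x + y)) := by fun_prop
  rw [intervalIntegral.integral_eq_sub_of_hasDerivAt hd (hc.intervalIntegrable _ _)]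
  ring

end Helper63.MassLo
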