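import Pool.Agent.Helper63.MEI.MassLo1
import Pool.Agent.Helper49.MEI.Cpl3

/-!
# Project MEI (M2): mass of the weighted cell from below, II

`massF_ge`: `∫ wF φ >= √2 JGl φ s1 s2 - (10/27) (Cs φ s3 + Cs φ s4)`; instances `ph22` and
`1 - 7|x|/8`.
-/

set_option autoImplicit false

namespace Helper63.MassLo

open Set MeasureTheory Filter Topology Metric
open Helper80.CW Helper22.Wedge Helper22.Sig Helper14.CW Helper14.MEI2 Helper93.MEI
open Helper22.MEI (s t FD FD_pos)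
open Helper21.Sec Helper21.Mom Helper53.MEI
open Pool.Agent.Helper95.MEI.Fub (Zp int_cont Zp_meas co_e)
open Pool.Agent.Helper73.MEI
open scoped RealInnerProductSpace ContDiff Real

variable {b : OrthonormalBasis (Fin 3) ℝ E3} {c : E3}

/-- upper bound of the volume term of one half -/
noncomputable def Cs (φ : ℝ → ℝ) (s' : ℝ) : ℝ :=
  ∫ x in (-(1 / 2) : ℝ)..(1 / 2), φ x * Rs s' x ^ 3

/-- the volume integrand -/
noncomputable def Dv (φ : ℝ → ℝ) (b : OrthonormalBasis (Fin 3) ℝ E3) (c : E3) (x : E3) : ℝ :=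
  φ (co b c x).1 * (8 * ((co b c x).2.2 - √2 / 4))

theorem Dv_Fs (φ : ℝ → ℝ) (ε : ℝ) (x : E3) : Dv φ b c x = Fs φ (Ux b c ε x) := by
  unfold Dv Fs Ux
  simp only
  ring

theorem Dv_cont {φ : ℝ → ℝ} (cφ : Continuous φ) : Continuous (Dv φ b c) := by
  have h := (co_cd b c).continuous
  unfold Dv
  fun_prop

/-- half of the cell -/
def Hf (b : OrthonormalBasis (Fin 3) ℝ E3) (c : E3) (K : Set E3) (ε : ℝ) : Set E3 :=
  (K ∩ EC b c) ∩ {x | 0 < ε * (co b c x).2.1}

section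
variable {φ : ℝ → ℝ} (hφ : ∀ X : ℝ, |X| ≤ 1 / 2 → 0 ≤ φ X)
  {K : Set E3} (hK : IsCompact K) {s1 s2 s3 s4 : ℝ} (h : Bod b c K s1 s2 s3 s4)
  (hSl : ∀ x ∈ K, |(co b c x).1| + |(co b c x).2.1| + √2 * ((co b c x).2.2 - √2 / 4) ≤ 1 / 2)

include h hSl in
/-- the half lies in the region -/
theorem half_sub {s' ε : ℝ} (hε : ε = 1 ∧ s4 ≤ s' ∨ ε = -1 ∧ s3 ≤ s') :
    Ux b c ε '' Hf b c K ε ⊆ Gs s' := by
  have r := r2
  rintro p ⟨x, ⟨⟨hxK, hxE⟩, hy⟩, rfl⟩
  have hS := hSl x hxK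
  rw [Helper37.Bulk.EC_iff] at hxE
  simp only [mem_ofPred_eq] at hy
  have hεa : |ε| = 1 := by rcases hε with h | h <;> rw [h.1] <;> simp
  have hQ : (co b c x).1 ^ 2 + (co b c x).2.1 ^ 2 + ((co b c x).2.2 - √2 / 4) ^ 2
    + ε * (co b c x).2.1 + √2 * ((co b c x).2.2 - √2 / 4) - 1 / 4 ≤ s' := by
    rcases hε with ⟨h3, h4⟩ | ⟨h3, h4⟩
    · have := h.Q4 x hxK
      rw [h3]; linarith
    · have := h.Q3 x hxK
      rw [h3]; linarith
  have e0 : Ux b c ε x = (((co b c x).1, ε * (co b c x).2.1),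
    ((co b c x).2.2 - √2 / 4) - √2 * (ε * (co b c x).2.1)) := rfl
  have h5 := le_abs_self (ε * (co b c x).2.1)
  rw [abs_mul, hεa, one_mul] at h5
  rw [e0]
  generalize (co b c x).1 = X at *
  generalize (co b c x).2.2 - √2 / 4 = W at *
  generalize hY : (co b c x).2.1 = Y at *
  generalize ε * Y = y at *
  have hyW : y < √2 / 2 * W := by linarith
  have hW0 : 0 < W := by
    by_contra hcon
    rw [not_lt] at hcon
    have : √2 / 2 * W ≤ 0 := mul_nonpos_of_nonneg_of_nonpos (by positivity) hcon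
    linarith
  have h6 : 0 < W ^ 2 := by positivity
  have h7 := sq_nonneg Y
  have hlt : √2 * W + y < Rs s' X := by
    unfold Rs
    linarith
  have h8 : 0 < √2 := by positivity
  have h9 : 2 * y < √2 * W := by
    have e : √2 * W = 2 * (√2 / 2 * W) := by ring
    linarith
  have h10 : 0 < √2 * W := mul_pos h8 hW0
  have hX : |X| < 1 / 2 := by
    have := abs_nonneg Y
    linarith
  obtain ⟨hX1, hX2⟩ := abs_lt.1 hX
  refine ⟨⟨⟨hX1, hX2.le⟩, hy, ?_⟩, ?_, ?_⟩
  · simp only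
    linarith
  · simp only
    have h10 : √2 * y < √2 * (√2 / 2 * W) := mul_lt_mul_of_pos_left hyW h8
    have e : √2 * (√2 / 2 * W) = W := by linear_combination W / 2 * r
    linarith
  · show W - √2 * y < √2 / 2 * (Rs s' X - 3 * y)
    have h10 : √2 / 2 * (√2 * W + y) < √2 / 2 * Rs s' X :=
      mul_lt_mul_of_pos_left hlt (by positivity)
    have e : √2 / 2 * (√2 * W + y) = W + √2 / 2 * y := by linear_combination W / 2 * r
    linarith

include hφ hK h hSl in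
/-- volume term of one half -/
theorem half_le (cφ : Continuous φ) {s' ε : ℝ} (hs' : 0 ≤ s')
    (hε : ε = 1 ∧ s4 ≤ s' ∨ ε = -1 ∧ s3 ≤ s') :
    ∫ x in Hf b c K ε, Dv φ b c x ≤ 10 / 27 * Cs φ s' := by
  have hε1 : ε = 1 ∨ ε = -1 := by
    rcases hε with h | h
    · exact Or.inl h.1
    · exact Or.inr h.1
  have e1 : ∫ x in Hf b c K ε, Dv φ b c x = ∫ p in Ux b c ε '' Hf b c K ε, Fs φ p := by
    rw [← int_Ux hε1]
    refine integral_congr_ae (Eventually.of_forall fun x => ?_)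
    exact Dv_Fs φ ε x
  unfold Cs
  rw [e1, ← Gs_int cφ hs']
  have hGm : MeasurableSet (Gs s') :=
    measurableSet_regionBetween measurable_const (Hs_cont s').measurable (Bs_meas s')
  have hi : IntegrableOn (Fs φ) (Gs s') :=
    ((Fs_cont cφ).continuousOn.integrableOn_compact (Gs_bdd hs').isCompact_closure).mono_set
      subset_closure
  refine setIntegral_mono_set hi ?_ (half_sub h hSl hε).eventuallyLE
  refine (ae_restrict_iff' hGm).2 (ae_of_all _ ?_)
  rintro ⟨⟨X, y⟩, l⟩ ⟨⟨hX, hy⟩, hl⟩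
  simp only [mem_Ioc, mem_Ioo] at hX hy hl
  unfold Fs
  simp only
  refine mul_nonneg (hφ X (abs_le.2 ⟨hX.1.le, hX.2⟩)) ?_
  have h1 : 0 ≤ √2 * y := mul_nonneg (by positivity) hy.1.le
  linarith [hl.1]

/-- the middle plane is null -/
theorem mid_null : volume {x : E3 | (co b c x).2.1 = 0} = 0 := by
  have h0 : (volume : Measure ((ℝ × ℝ) × ℝ)) {p | p.1.2 = 0} = 0 := by
    have e : {p : (ℝ × ℝ) × ℝ | p.1.2 = 0} = (univ ×ˢ {0}) ×ˢ univ := by
      ext p
      simp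
    rw [e, Measure.volume_eq_prod, Measure.prod_prod, Measure.volume_eq_prod, Measure.prod_prod]
    simp
  have h1 := (Ux_mp (b := b) (c := c) (ε := 1) (Or.inl rfl)).measure_preimage
    (measurableSet_eq_fun (by fun_prop) measurable_const).nullMeasurableSet
    (s := {p : (ℝ × ℝ) × ℝ | p.1.2 = 0})
  rw [h0] at h1
  have e : Ux b c 1 ⁻¹' {p : (ℝ × ℝ) × ℝ | p.1.2 = 0} = {x : E3 | (co b c x).2.1 = 0} := by
    ext x
    simp only [mem_preimage, mem_ofPred_eq, Ux, one_mul]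
  rw [e] at h1
  exact h1

include hφ hK h hSl in
/-- **volume term from above** -/
theorem vol_le (cφ : Continuous φ) : ∫ x in K ∩ EC b c, Dv φ b c x ≤
    10 / 27 * (Cs φ s3 + Cs φ s4) := by
  have hEm : MeasurableSet (K ∩ EC b c) := by
    refine hK.isClosed.measurableSet.inter ?_
    rw [← cel_eq]; exact (Cel_open _ _).measurableSet
  have hcc := (co_cd b c).continuous
  have hT : MeasurableSet {x : E3 | 0 < 1 * (co b c x).2.1} := by
    refine measurableSet_lt measurable_const ?_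
    exact (continuous_const.mul (continuous_fst.comp (continuous_snd.comp hcc))).measurable
  have hi : IntegrableOn (Dv φ b c) (K ∩ EC b c) :=
    ((Dv_cont cφ).continuousOn.integrableOn_compact hK).mono_set inter_subset_left
  have h1 := half_le hφ hK h hSl cφ h.s4_nn (s' := s4) (ε := 1) (Or.inl ⟨rfl, le_rfl⟩)
  have h2 := half_le hφ hK h hSl cφ h.s3_nn (s' := s3) (ε := -1) (Or.inr ⟨rfl, le_rfl⟩)
  have h3 := integral_inter_add_sdiff (μ := volume) (s := K ∩ EC b c)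
    (t := {x : E3 | 0 < 1 * (co b c x).2.1}) hT hi
  have h4 : ∫ x in (K ∩ EC b c) \ {x : E3 | 0 < 1 * (co b c x).2.1}, Dv φ b c x =
      ∫ x in Hf b c K (-1), Dv φ b c x := by
    refine setIntegral_congr_set ?_
    have hn := (measure_eq_zero_iff_ae_notMem (μ := volume)).1 (mid_null (b := b) (c := c))
    filter_upwards [hn] with x hx
    have hx' : (co b c x).2.1 ≠ 0 := hx
    refine propext ⟨?_, ?_⟩
    · rintro ⟨h5, h6⟩
      refine ⟨h5, ?_⟩
      simp only [mem_ofPred_eq, not_lt, one_mul] at h6 ⊢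
      have := lt_of_le_of_ne h6 hx'
      linarith
    · rintro ⟨h5, h6⟩
      refine ⟨h5, ?_⟩
      simp only [mem_ofPred_eq, not_lt, one_mul] at h6 ⊢
      linarith
  rw [h4] at h3
  have h5 : ∫ x in (K ∩ EC b c) ∩ {x : E3 | 0 < 1 * (co b c x).2.1}, Dv φ b c x =
      ∫ x in Hf b c K 1, Dv φ b c x := rfl
  linarith

include hφ hK h hSl in
/-- the two volume terms of the fluxes -/
theorem dG_le (cφ : Continuous φ) :
    (∫ x in K ∩ EC b c, dG φ 1 (co b c x)) + (∫ x in K ∩ EC b c, dG φ (-1) (co b c x)) ≤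
      √2 * (10 / 27 * (Cs φ s3 + Cs φ s4)) := by
  have hEm : MeasurableSet (K ∩ EC b c) := by
    refine hK.isClosed.measurableSet.inter ?_
    rw [← cel_eq]; exact (Cel_open _ _).measurableSet
  have hcc := (co_cd b c).continuous
  have hFD : Continuous (fun x : E3 => FD (co b c x)) :=
    (Helper37.MEI.FD_cdn (n := 0)).continuous.comp hcc
  have hd : ∀ ε : ℝ, Continuous (fun x : E3 => dG φ ε (co b c x)) := by
    intro ε
    unfold dG
    refine Continuous.mul (cφ.comp (continuous_fst.comp hcc)) ?_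
    refine Continuous.div ?_ (continuous_const.mul (hFD.pow 2)) fun z => ?_
    · have h1 := continuous_snd.comp (continuous_snd.comp hcc)
      have h2 := continuous_fst.comp (continuous_snd.comp hcc)
      exact (continuous_const.mul (h1.sub continuous_const)).sub (continuous_const.mul h2)
    · have := FD_pos (co b c z)
      positivity
  have hdi : ∀ ε : ℝ, IntegrableOn (fun x : E3 => dG φ ε (co b c x)) (K ∩ EC b c) := fun ε =>
    ((hd ε).continuousOn.integrableOn_compact hK).mono_set inter_subset_left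
  have hDi : IntegrableOn (fun x => √2 * Dv φ b c x) (K ∩ EC b c) :=
    ((((Dv_cont cφ).const_smul (√2)).continuousOn.integrableOn_compact hK).mono_set
      inter_subset_left)
  rw [← integral_add (hdi 1) (hdi (-1))]
  refine le_trans ?_ (mul_le_mul_of_nonneg_left (vol_le hφ hK h hSl cφ) (Real.sqrt_nonneg 2))
  rw [← integral_const_mul]
  refine setIntegral_mono_on ((hdi 1).add (hdi (-1))) hDi hEm fun x hx => ?_
  have hX := h.X_le x hx.1
  have hxE := hx.2
  rw [Helper37.Bulk.EC_iff] at hxE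
  have h0 := hφ _ hX
  unfold dG Dv FD t
  generalize (co b c x).1 = X at *
  generalize hWd : (co b c x).2.2 - √2 / 4 = W at *
  generalize (co b c x).2.1 = Y at *
  have hW0 : 0 ≤ W := by
    have := abs_nonneg Y
    by_contra hcon
    rw [not_le] at hcon
    have : √2 / 2 * W ≤ 0 := mul_nonpos_of_nonneg_of_nonpos (by positivity) hcon.le
    linarith
  have hD0 : (1 : ℝ) / 4 ≤ 1 / 4 + X ^ 2 / 8 + (Y ^ 2 + W ^ 2) := by
    have h1 : 0 ≤ X ^ 2 / 8 + (Y ^ 2 + W ^ 2) := by positivity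
    linarith
  generalize 1 / 4 + X ^ 2 / 8 + (Y ^ 2 + W ^ 2) = D at *
  have hD : (1 : ℝ) / 8 ≤ 2 * D ^ 2 := by nlinarith
  have hDp : 0 < 2 * D ^ 2 := by linarith
  have e : φ X * ((√2 / 2 * W - 1 * Y) / (2 * D ^ 2)) + φ X * ((√2 / 2 * W - -1 * Y) / (2 * D ^ 2)) =
      φ X * (√2 * W / (2 * D ^ 2)) := by
    rw [← mul_add, ← add_div]
    congr 2
    ring
  have h1 : √2 * W / (2 * D ^ 2) ≤ √2 * W * 8 := by
    rw [div_le_iff₀ hDp]
    have h2 : 0 ≤ √2 * W := by positivity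
    nlinarith
  have h2 := mul_le_mul_of_nonneg_left h1 h0
  have e2 : √2 * (φ X * (8 * W)) = φ X * (√2 * W * 8) := by ring
  rw [e2]
  exact e.le.trans h2

end

/-! ### the mass -/

section fr
variable {a : Fin 4 → E3} (ha : ∀ i j, i ≠ j → dist (a i) (a j) = 1)
  {K : Set E3} {σ : Measure (E3 × E3)} [IsFiniteMeasure σ] (h : PM K σ)
  (hcomp : ∀ p : E3, (∀ q ∈ K, dist p q ≤ 1) → p ∈ K)
  (hpl : ∀ x ∈ K, Pl a x) {b : OrthonormalBasis (Fin 3) ℝ E3} (hb : Fr a b)
  {S : Fin 4 → ℝ} (hQ : ∀ x ∈ K, ∀ i, Qv a i x ≤ S i) (hS0 : ∀ i, 0 ≤ S i)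

include ha h hpl hb in
/-- the mass dominates the axial flux -/
theorem mass_flux {φ : ℝ → ℝ} (cφ : Continuous φ) (hφ : ∀ X : ℝ, |X| ≤ 1 / 2 → 0 ≤ φ X) :
    -(√2 * ∫ z in Zp a 2 3, wF φ a z.1 ∂σ) ≤
      (∫ z in {z : E3 × E3 | z.1 ∈ EC b (cen a)}, omF φ (co b (cen a) z.1) *
        ⟪be b 1, z.1 - z.2⟫ ∂σ) +
      ∫ z in {z : E3 × E3 | z.1 ∈ EC b (cen a)}, omF φ (co b (cen a) z.1) *
        ⟪be b (-1), z.1 - z.2⟫ ∂σ := by
  rw [← Helper21.Alp.Zp_eq ha hb]
  have hwc := wF_cont cφ a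
  have hf : ∀ v : E3, Integrable (fun z : E3 × E3 => omF φ (co b (cen a) z.1) *
      ⟪v, z.1 - z.2⟫) σ := by
    intro v
    have e : (fun z : E3 × E3 => omF φ (co b (cen a) z.1) * ⟪v, z.1 - z.2⟫) =
        fun z : E3 × E3 => wF φ a z.1 * ⟪v, z.1 - z.2⟫ := by
      funext z
      rw [wF_om ha hb]
    rw [e]
    exact int_cont h.cpt h.mem ((hwc.comp continuous_fst).mul (by fun_prop))
  have hm : Integrable (fun z : E3 × E3 => wF φ a z.1) σ :=
    int_cont h.cpt h.mem (hwc.comp continuous_fst)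
  rw [← integral_add (hf _).integrableOn (hf _).integrableOn, ← integral_const_mul,
    ← integral_neg]
  refine integral_mono_ae (hm.const_mul _).neg.integrableOn
    ((hf _).integrableOn.add (hf _).integrableOn) ?_
  filter_upwards [ae_restrict_of_ae h.ae] with z hz
  have hX := (pl_e (gram_of_dist ha) (hpl _ hz.1)).2.1
  have hD := Pool.Agent.Helper8.MEI.DD_pos (eX a z.1) (eY a z.1) (eW a z.1)
  have hw0 : 0 ≤ wF φ a z.1 := div_nonneg (hφ _ hX) (by positivity)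
  show -(√2 * wF φ a z.1) ≤ omF φ (co b (cen a) z.1) * ⟪be b 1, z.1 - z.2⟫ +
    omF φ (co b (cen a) z.1) * ⟪be b (-1), z.1 - z.2⟫
  rw [← wF_om ha hb φ z.1, ← mul_add, ← inner_add_left]
  have e : be b 1 + be b (-1) = -(√2 • b 2) := by
    unfold be
    module
  rw [e, inner_neg_left, real_inner_smul_left]
  have h1 : ⟪b 2, z.1 - z.2⟫ ≤ 1 := by
    have h2 := real_inner_le_norm (b 2) (z.1 - z.2)
    rw [b.orthonormal.1 2, hz.2.2.1, one_mul] at h2
    exact h2
  have h3 : √2 * ⟪b 2, z.1 - z.2⟫ ≤ √2 * 1 := mul_le_mul_of_nonneg_left h1 (Real.sqrt_nonneg 2)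
  have h4 := mul_le_mul_of_nonneg_left h3 hw0
  linarith

include ha h hcomp hpl hb hQ hS0 in
/-- **mass of the weighted cell from below** -/
theorem massF_ge {φ : ℝ → ℝ} {φn : ℕ → ℝ → ℝ} (hw : Wgt φ φn) (cφ : Continuous φ)
    (hφ : ∀ X : ℝ, |X| ≤ 1 / 2 → 0 ≤ φ X) :
    √2 * JGl φ (S 0) (S 1) - 10 / 27 * (Cs φ (S 2) + Cs φ (S 3)) ≤
      ∫ z in Zp a 2 3, wF φ a z.1 ∂σ := by
  have hB := Helper21.Alp.bod ha hcomp hpl hb hQ hS0
  have hsl := slab_co ha hpl hb
  have h1 := flux2P_le h.cpt h.mem h.flux hB hw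
  have h2 := mass_flux ha h hpl hb cφ hφ
  have h3 := dG_le hφ h.cpt hB hsl cφ
  have r := r2
  have h4 : -(√2 * ∫ z in Zp a 2 3, wF φ a z.1 ∂σ) ≤
      √2 * (10 / 27 * (Cs φ (S 2) + Cs φ (S 3))) - 2 * JGl φ (S 0) (S 1) := by linarith
  have h5 : √2 * (√2 * JGl φ (S 0) (S 1) - 10 / 27 * (Cs φ (S 2) + Cs φ (S 3)) -
      ∫ z in Zp a 2 3, wF φ a z.1 ∂σ) ≤ 0 := by
    have e : √2 * (√2 * JGl φ (S 0) (S 1) - 10 / 27 * (Cs φ (S 2) + Cs φ (S 3)) -
      ∫ z in Zp a 2 3, wF φ a z.1 ∂σ) = 2 * JGl φ (S 0) (S 1) -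
      √2 * (10 / 27 * (Cs φ (S 2) + Cs φ (S 3))) - √2 * ∫ z in Zp a 2 3, wF φ a z.1 ∂σ := by
      linear_combination (JGl φ (S 0) (S 1)) * r
    linarith
  have h6 : (0 : ℝ) < √2 := by positivity
  nlinarith

end fr

end Helper63.MassLo
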