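import Pool.Agent.Helper21.MEI.Sec
import Pool.Agent.Helper82.CW.Num

/-!
# Project MEI (M2): mass of the weighted cell by the radial calibration, I: polar coordinates
-/

set_option autoImplicit false

namespace Helper63.Rad

open Set MeasureTheory Filter Topology Real
open Helper21.Sec

/-- the sector of radius `L` -/
def Sd (L : ℝ) : Set (ℝ × ℝ) := {w | √2 * |w.1| < w.2 ∧ w.1 ^ 2 + w.2 ^ 2 < L ^ 2}

/-- the opening angle -/
noncomputable def ka : ℝ := arccos (1 / 3)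

theorem ka_lo : 1.2309 ≤ ka := Helper82.CW.arccos_third

theorem ka_hi : ka ≤ π / 2 := by
  unfold ka
  exact arccos_le_pi_div_two.2 (by norm_num)

/-- the angular condition -/
theorem cone {θ : ℝ} (h : |θ| < ka / 2) : √2 * |Real.sin θ| < Real.cos θ := by
  have hk := ka_hi
  have hpi := pi_pos
  have h1 : |2 * θ| < ka := by
    rw [abs_mul, abs_two]
    linarith
  have h2 : 1 / 3 < Real.cos (2 * θ) := by
    rw [← Real.cos_abs]
    have h3 : Real.cos ka < Real.cos |2 * θ| :=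
      Real.strictAntiOn_cos ⟨abs_nonneg _, by linarith⟩ ⟨(abs_nonneg _).trans h1.le, by linarith⟩ h1
    have h4 : Real.cos ka = 1 / 3 := Real.cos_arccos (by norm_num) (by norm_num)
    linarith
  rw [Real.cos_two_mul] at h2
  have h5 := Real.sin_sq_add_cos_sq θ
  have h6 : 0 < Real.cos θ := by
    obtain ⟨h7, h8⟩ := abs_lt.1 h
    exact Real.cos_pos_of_mem_Ioo ⟨by linarith, by linarith⟩
  have h7 : (√2 * |Real.sin θ|) ^ 2 < Real.cos θ ^ 2 := by
    rw [mul_pow, Real.sq_sqrt (by norm_num), sq_abs]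
    linarith
  exact lt_of_pow_lt_pow_left₀ 2 h6.le h7

/-- the box in polar coordinates -/
noncomputable def Pb (L : ℝ) : Set (ℝ × ℝ) := Ioo 0 L ×ˢ Ioo (π / 2 - ka / 2) (π / 2 + ka / 2)

theorem Pb_meas (L : ℝ) : MeasurableSet (Pb L) := measurableSet_Ioo.prod measurableSet_Ioo

theorem Pb_target (L : ℝ) : Pb L ⊆ polarCoord.target := by
  rintro ⟨r, θ⟩ ⟨h1, h2⟩
  have hk := ka_hi
  have hpi := pi_pos
  simp only [mem_Ioo] at h1 h2
  exact ⟨h1.1, by simp only [mem_Ioo]; constructor <;> linarith⟩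

theorem Pb_sub (L : ℝ) : polarCoord.symm '' Pb L ⊆ Sd L := by
  rintro w ⟨⟨r, θ⟩, ⟨h1, h2⟩, rfl⟩
  simp only [mem_Ioo] at h1 h2
  rw [polarCoord_symm_apply]
  simp only
  have h3 : |π / 2 - θ| < ka / 2 := abs_lt.2 ⟨by linarith, by linarith⟩
  have h4 := cone h3
  rw [Real.sin_pi_div_two_sub, Real.cos_pi_div_two_sub] at h4
  refine ⟨?_, ?_⟩
  · simp only
    rw [abs_mul, abs_of_pos h1.1]
    have := mul_lt_mul_of_pos_left h4 h1.1
    linarith
  · simp only
    have h5 : (r * Real.cos θ) ^ 2 + (r * Real.sin θ) ^ 2 = r ^ 2 := by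
      have := Real.sin_sq_add_cos_sq θ
      linear_combination r ^ 2 * this
    rw [h5]
    exact pow_lt_pow_left₀ h1.2 h1.1.le two_ne_zero

/-- the section integrand -/
noncomputable def Gr (A ε : ℝ) (w : ℝ × ℝ) : ℝ :=
  (A - 12 * (w.1 ^ 2 + w.2 ^ 2)) * (√(w.1 ^ 2 + w.2 ^ 2 + ε ^ 2))⁻¹

theorem Gr_cont (A : ℝ) {ε : ℝ} (hε : 0 < ε) : Continuous (Gr A ε) := by
  unfold Gr
  refine Continuous.mul (by fun_prop) (Continuous.inv₀ (by fun_prop) fun w => ?_)
  have : 0 < w.1 ^ 2 + w.2 ^ 2 + ε ^ 2 := by positivity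
  positivity

theorem Sd_bdd {L : ℝ} (hL : 0 < L) : Bornology.IsBounded (Sd L) := by
  have h : Sd L ⊆ Icc (-L) L ×ˢ Icc (-L) L := by
    rintro w ⟨_, h2⟩
    have a1 : |w.1| ≤ L := abs_le_of_sq_le_sq (by nlinarith [sq_nonneg w.2]) hL.le
    have a2 : |w.2| ≤ L := abs_le_of_sq_le_sq (by nlinarith [sq_nonneg w.1]) hL.le
    exact ⟨abs_le.1 a1, abs_le.1 a2⟩
  exact ((Metric.isBounded_Icc _ _).prod (Metric.isBounded_Icc _ _)).subset h

theorem Sd_meas (L : ℝ) : MeasurableSet (Sd L) := by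
  have m1 : MeasurableSet {w : ℝ × ℝ | √2 * |w.1| < w.2} :=
    measurableSet_lt (by fun_prop : Continuous fun w : ℝ × ℝ => √2 * |w.1|).measurable
      measurable_snd
  have m2 : MeasurableSet {w : ℝ × ℝ | w.1 ^ 2 + w.2 ^ 2 < L ^ 2} :=
    measurableSet_lt (by fun_prop : Continuous fun w : ℝ × ℝ => w.1 ^ 2 + w.2 ^ 2).measurable
      measurable_const
  exact m1.inter m2

/-- **the section integral from below** -/
theorem polar_lo {L A ε : ℝ} (hL : 0 < L) (hA : 12 * L ^ 2 ≤ A) (hε : 0 < ε) :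
    ka * (A * (L - ε) - 4 * L ^ 3) ≤ ∫ w in Sd L, Gr A ε w := by
  have hA0 : 0 ≤ A := le_trans (by positivity) hA
  have hk0 : 0 ≤ ka := by linarith [ka_lo]
  have hi : IntegrableOn (Gr A ε) (Sd L) :=
    ((Gr_cont A hε).continuousOn.integrableOn_compact (Sd_bdd hL).isCompact_closure).mono_set
      subset_closure
  have h1 : ∫ w in polarCoord.symm '' Pb L, Gr A ε w ≤ ∫ w in Sd L, Gr A ε w := by
    refine setIntegral_mono_set hi ?_ (Pb_sub L).eventuallyLE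
    refine (ae_restrict_iff' (Sd_meas L)).2 (ae_of_all _ fun w hw => ?_)
    have h2 := hw.2
    unfold Gr
    exact mul_nonneg (by linarith) (by positivity)
  refine le_trans ?_ h1
  rw [integral_image_eq_integral_abs_det_fderiv_smul volume (Pb_meas L)
    (fun p _ => (hasFDerivAt_polarCoord_symm p).hasFDerivWithinAt)
    (polarCoord.symm.injOn.mono (Pb_target L))]
  have h2 : ∫ p in Pb L, |(fderivPolarCoordSymm p).det| • Gr A ε (polarCoord.symm p) =
      ∫ p in Pb L, (p.1 * ((A - 12 * p.1 ^ 2) * (√(p.1 ^ 2 + ε ^ 2))⁻¹)) * 1 := by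
    refine setIntegral_congr_fun (Pb_meas L) ?_
    rintro ⟨r, θ⟩ ⟨hr, _⟩
    simp only [mem_Ioo] at hr
    simp only
    rw [det_fderivPolarCoordSymm, abs_of_pos hr.1, polarCoord_symm_apply, smul_eq_mul, mul_one]
    unfold Gr
    simp only
    have h5 : (r * Real.cos θ) ^ 2 + (r * Real.sin θ) ^ 2 = r ^ 2 := by
      have := Real.sin_sq_add_cos_sq θ
      linear_combination r ^ 2 * this
    rw [h5]
  rw [h2]
  have h3 := setIntegral_prod_mul (μ := (volume : Measure ℝ)) (ν := (volume : Measure ℝ))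
    (fun r : ℝ => r * ((A - 12 * r ^ 2) * (√(r ^ 2 + ε ^ 2))⁻¹)) (fun _ : ℝ => (1 : ℝ))
    (Ioo 0 L) (Ioo (π / 2 - ka / 2) (π / 2 + ka / 2))
  have h4 : (volume : Measure (ℝ × ℝ)) = (volume : Measure ℝ).prod (volume : Measure ℝ) := rfl
  unfold Pb
  rw [h4, h3]
  have h5 : ∫ _ in Ioo (π / 2 - ka / 2) (π / 2 + ka / 2), (1 : ℝ) = ka := by
    rw [setIntegral_const, smul_eq_mul, mul_one, Measure.real, Real.volume_Ioo,
      ENNReal.toReal_ofReal (by linarith)]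
    ring
  rw [h5, mul_comm ka]
  refine mul_le_mul_of_nonneg_right ?_ hk0
  rw [← integral_Ioc_eq_integral_Ioo, ← intervalIntegral.integral_of_le hL.le]
  have hs : ∀ r : ℝ, 0 < r ^ 2 + ε ^ 2 := fun r => by positivity
  have hc1 : Continuous fun r : ℝ => r * ((A - 12 * r ^ 2) * (√(r ^ 2 + ε ^ 2))⁻¹) := by
    refine continuous_id.mul (Continuous.mul (by fun_prop) (Continuous.inv₀ (by fun_prop)
      fun r => ?_))
    have := hs r
    positivity
  have hc2 : Continuous fun r : ℝ => A * (r * (√(r ^ 2 + ε ^ 2))⁻¹) - 12 * r ^ 2 := by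
    refine Continuous.sub (continuous_const.mul (continuous_id.mul (Continuous.inv₀ (by fun_prop)
      fun r => ?_))) (by fun_prop)
    have := hs r
    positivity
  have hd : ∀ r ∈ uIcc (0 : ℝ) L, HasDerivAt (fun r : ℝ => A * √(r ^ 2 + ε ^ 2) - 4 * r ^ 3)
      (A * (r * (√(r ^ 2 + ε ^ 2))⁻¹) - 12 * r ^ 2) r := by
    intro r _
    have k1 : HasDerivAt (fun r : ℝ => √(r ^ 2 + ε ^ 2)) (2 * r / (2 * √(r ^ 2 + ε ^ 2))) r := by
      have k2 := (hasDerivAt_pow 2 r).add_const (ε ^ 2)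
      have k3 := k2.sqrt (hs r).ne'
      refine k3.congr_deriv ?_
      norm_num
    have k4 := (k1.const_mul A).sub ((hasDerivAt_pow 3 r).const_mul 4)
    refine k4.congr_deriv ?_
    have h6 : 0 < √(r ^ 2 + ε ^ 2) := Real.sqrt_pos.2 (hs r)
    push_cast
    field_simp
    ring
  have h6 : ∫ r in (0 : ℝ)..L, (A * (r * (√(r ^ 2 + ε ^ 2))⁻¹) - 12 * r ^ 2) ≤
      ∫ r in (0 : ℝ)..L, r * ((A - 12 * r ^ 2) * (√(r ^ 2 + ε ^ 2))⁻¹) := by
    refine intervalIntegral.integral_mono_on hL.le (hc2.intervalIntegrable _ _)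
      (hc1.intervalIntegrable _ _) fun r hr => ?_
    have h7 : r ≤ √(r ^ 2 + ε ^ 2) := Real.le_sqrt_of_sq_le (by linarith [sq_nonneg ε])
    have h8 : 0 < √(r ^ 2 + ε ^ 2) := Real.sqrt_pos.2 (hs r)
    have h9 : r * (√(r ^ 2 + ε ^ 2))⁻¹ ≤ 1 := by
      rw [← div_eq_mul_inv, div_le_one h8]
      exact h7
    have h10 := mul_le_mul_of_nonneg_left h9 (show 0 ≤ 12 * r ^ 2 by positivity)
    have e : r * ((A - 12 * r ^ 2) * (√(r ^ 2 + ε ^ 2))⁻¹) =
        A * (r * (√(r ^ 2 + ε ^ 2))⁻¹) - 12 * r ^ 2 * (r * (√(r ^ 2 + ε ^ 2))⁻¹) := by ring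
    rw [e]
    linarith
  refine le_trans ?_ h6
  rw [intervalIntegral.integral_eq_sub_of_hasDerivAt hd (hc2.intervalIntegrable _ _)]
  have h7 : L ≤ √(L ^ 2 + ε ^ 2) := Real.le_sqrt_of_sq_le (by linarith [sq_nonneg ε])
  have h8 : √((0 : ℝ) ^ 2 + ε ^ 2) = ε := by
    rw [zero_pow two_ne_zero, zero_add]
    exact Real.sqrt_sq hε.le
  rw [h8]
  have h9 := mul_le_mul_of_nonneg_left h7 hA0
  have h10 : (4 : ℝ) * 0 ^ 3 = 0 := by norm_num
  rw [h10]
  linarith

end Helper63.Rad
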