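import Pool.Agent.Helper63.MEI.MassLo2
import Pool.Agent.Helper63.MEI.Rad1

/-!
# Project MEI (M2): mass of the weighted cell by the radial calibration, II: the flux
-/

set_option autoImplicit false

namespace Helper63.Rad

open Set MeasureTheory Filter Topology Metric
open Helper80.CW Helper22.Wedge Helper22.Sig Helper14.CW Helper14.MEI2 Helper93.MEI
open Helper22.MEI (s t FD FD_pos)
open Helper21.Sec Helper21.Mom Helper53.MEI
open scoped RealInnerProductSpace ContDiff Real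

/-! ### the radial unit field -/

/-- inverse of the smoothed distance -/
noncomputable def ri (ε : ℝ) (q : ℝ × ℝ × ℝ) : ℝ := (√(q.2.1 ^ 2 + (q.2.2 - t) ^ 2 + ε ^ 2))⁻¹

noncomputable def hY (ε : ℝ) (q : ℝ × ℝ × ℝ) : ℝ := q.2.1 * ri ε q

noncomputable def hW (ε : ℝ) (q : ℝ × ℝ × ℝ) : ℝ := (q.2.2 - t) * ri ε q

theorem ri_cd {ε : ℝ} (hε : 0 < ε) {n : WithTop ℕ∞} : ContDiff ℝ n (ri ε) := by
  have h1 : ContDiff ℝ n (fun q : ℝ × ℝ × ℝ => q.2.1 ^ 2 + (q.2.2 - t) ^ 2 + ε ^ 2) := by fun_prop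
  have h2 : ∀ q : ℝ × ℝ × ℝ, 0 < q.2.1 ^ 2 + (q.2.2 - t) ^ 2 + ε ^ 2 := fun q => by positivity
  have h3 := h1.sqrt fun q => (h2 q).ne'
  exact h3.inv fun q => (Real.sqrt_pos.2 (h2 q)).ne'

theorem hY_cd {ε : ℝ} (hε : 0 < ε) {n : WithTop ℕ∞} : ContDiff ℝ n (hY ε) := by
  have h1 : ContDiff ℝ n (fun q : ℝ × ℝ × ℝ => q.2.1) := by fun_prop
  exact h1.mul (ri_cd hε)

theorem hW_cd {ε : ℝ} (hε : 0 < ε) {n : WithTop ℕ∞} : ContDiff ℝ n (hW ε) := by
  have h1 : ContDiff ℝ n (fun q : ℝ × ℝ × ℝ => q.2.2 - t) := by fun_prop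
  exact h1.mul (ri_cd hε)

theorem ri_pos {ε : ℝ} (hε : 0 < ε) (q : ℝ × ℝ × ℝ) : 0 < ri ε q := by
  have : 0 < q.2.1 ^ 2 + (q.2.2 - t) ^ 2 + ε ^ 2 := by positivity
  exact inv_pos.2 (Real.sqrt_pos.2 this)

/-- the derivative of the unit field in one coordinate -/
theorem dq {u k : ℝ} (hk : 0 < k) : HasDerivAt (fun a : ℝ => a * (√(a ^ 2 + k))⁻¹)
    ((√(u ^ 2 + k))⁻¹ - u ^ 2 * ((√(u ^ 2 + k))⁻¹) ^ 3) u := by
  have h0 : 0 < u ^ 2 + k := by positivity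
  have h1 : HasDerivAt (fun a : ℝ => a ^ 2 + k) (2 * u) u := by
    have := (hasDerivAt_pow 2 u).add_const k
    refine this.congr_deriv ?_
    norm_num
  have h2 := h1.sqrt h0.ne'
  have h3 := h2.fun_inv (Real.sqrt_pos.2 h0).ne'
  have h4 := (hasDerivAt_id' u).fun_mul h3
  refine h4.congr_deriv ?_
  have h5 : 0 < √(u ^ 2 + k) := Real.sqrt_pos.2 h0
  field_simp
  ring

theorem E2_hY {ε : ℝ} (hε : 0 < ε) (q : ℝ × ℝ × ℝ) :
    Helper22.MEI.E2 (hY ε) q = ri ε q - q.2.1 ^ 2 * ri ε q ^ 3 := by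
  refine Helper22.MEI.E2_of (hY_cd hε) ?_
  have hk : 0 < (q.2.2 - t) ^ 2 + ε ^ 2 := by positivity
  have h := dq (u := q.2.1) hk
  unfold hY ri
  simp only [add_assoc]
  exact h

theorem E3_hW {ε : ℝ} (hε : 0 < ε) (q : ℝ × ℝ × ℝ) :
    Helper22.MEI.E3 (hW ε) q = ri ε q - (q.2.2 - t) ^ 2 * ri ε q ^ 3 := by
  refine Helper22.MEI.E3_of (hW_cd hε) ?_
  have hk : 0 < q.2.1 ^ 2 + ε ^ 2 := by positivity
  have h := dq (u := q.2.2 - t) hk
  have h1 : HasDerivAt (fun a : ℝ => a - t) 1 q.2.2 := (hasDerivAt_id q.2.2).sub_const t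
  have h2 := h.comp q.2.2 h1
  rw [mul_one] at h2
  have e : ∀ a : ℝ, q.2.1 ^ 2 + a ^ 2 + ε ^ 2 = a ^ 2 + (q.2.1 ^ 2 + ε ^ 2) := fun a => by ring
  unfold hW ri
  simp only [e]
  exact h2

theorem E2_mulR {F G : ℝ × ℝ × ℝ → ℝ} (hF : ContDiff ℝ 1 F) (hG : ContDiff ℝ 1 G)
    (q : ℝ × ℝ × ℝ) : Helper22.MEI.E2 (fun p => F p * G p) q =
    F q * Helper22.MEI.E2 G q + G q * Helper22.MEI.E2 F q := by
  have h := fderiv_fun_mul (hF.differentiable one_ne_zero q) (hG.differentiable one_ne_zero q)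
  unfold Helper22.MEI.E2
  rw [h]
  simp only [add_apply, FunLike.coe_smul, Pi.smul_apply, smul_eq_mul]

theorem E3_mulR {F G : ℝ × ℝ × ℝ → ℝ} (hF : ContDiff ℝ 1 F) (hG : ContDiff ℝ 1 G)
    (q : ℝ × ℝ × ℝ) : Helper22.MEI.E3 (fun p => F p * G p) q =
    F q * Helper22.MEI.E3 G q + G q * Helper22.MEI.E3 F q := by
  have h := fderiv_fun_mul (hF.differentiable one_ne_zero q) (hG.differentiable one_ne_zero q)
  unfold Helper22.MEI.E3
  rw [h]
  simp only [add_apply, FunLike.coe_smul, Pi.smul_apply, smul_eq_mul]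

/-- squared distance from the edge line -/
noncomputable def r2q (q : ℝ × ℝ × ℝ) : ℝ := q.2.1 ^ 2 + (q.2.2 - t) ^ 2

/-- divergence of the weighted field -/
noncomputable def dR (φ : ℝ → ℝ) (ε : ℝ) (q : ℝ × ℝ × ℝ) : ℝ :=
  omF φ q * (2 * ri ε q - r2q q * ri ε q ^ 3) - φ q.1 * r2q q / (2 * FD q ^ 2) * ri ε q

theorem dR_eq {φ : ℝ → ℝ} (sφ : ContDiff ℝ 1 φ) {ε : ℝ} (hε : 0 < ε) (q : ℝ × ℝ × ℝ) :
    Helper22.MEI.E2 (fun p => omF φ p * hY ε p) q + Helper22.MEI.E3 (fun p => omF φ p * hW ε p) q =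
      dR φ ε q := by
  rw [E2_mulR (omF_cd sφ) (hY_cd hε), E3_mulR (omF_cd sφ) (hW_cd hε), E2_hY hε, E3_hW hε,
    E2_omF sφ, E3_omF sφ]
  unfold dR hY hW r2q
  ring

theorem ri_facts {ε : ℝ} (hε : 0 < ε) (q : ℝ × ℝ × ℝ) :
    r2q q * ri ε q ^ 2 ≤ 1 := by
  have h0 : 0 < q.2.1 ^ 2 + (q.2.2 - t) ^ 2 + ε ^ 2 := by positivity
  have h1 : ri ε q ^ 2 = (q.2.1 ^ 2 + (q.2.2 - t) ^ 2 + ε ^ 2)⁻¹ := by
    unfold ri
    rw [inv_pow, Real.sq_sqrt h0.le]
  rw [h1, ← div_eq_mul_inv, div_le_one h0]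
  unfold r2q
  nlinarith [sq_nonneg ε]

/-- **lower bound of the divergence** -/
theorem dR_lo {φ : ℝ → ℝ} {ε : ℝ} (hε : 0 < ε) {q : ℝ × ℝ × ℝ} (h0 : 0 ≤ φ q.1) :
    φ q.1 * ((1 - q.1 ^ 2 / 2 - 12 * r2q q) * ri ε q) ≤ dR φ ε q := by
  have hD := FD_pos q
  have hr := ri_pos hε q
  have hf := ri_facts hε q
  have hρ : 0 ≤ r2q q := by unfold r2q; positivity
  have hFD : FD q = 1 / 4 + q.1 ^ 2 / 8 + r2q q := rfl
  have e : dR φ ε q = φ q.1 * (ri ε q * ((1 / (4 * FD q)) * (2 - r2q q * ri ε q ^ 2) -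
      r2q q / (2 * FD q ^ 2))) := by
    unfold dR omF
    ring
  rw [e]
  refine mul_le_mul_of_nonneg_left ?_ h0
  rw [mul_comm _ (ri ε q)]
  refine mul_le_mul_of_nonneg_left ?_ hr.le
  have hz : 4 * FD q = 1 + (q.1 ^ 2 / 2 + 4 * r2q q) := by rw [hFD]; ring
  have hz0 : 0 ≤ q.1 ^ 2 / 2 + 4 * r2q q := by positivity
  have h1 : 1 - (q.1 ^ 2 / 2 + 4 * r2q q) ≤ 1 / (4 * FD q) := by
    rw [hz, le_div_iff₀ (by linarith)]
    nlinarith [sq_nonneg (q.1 ^ 2 / 2 + 4 * r2q q)]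
  have h2 : r2q q / (2 * FD q ^ 2) ≤ 8 * r2q q := by
    rw [div_le_iff₀ (by positivity)]
    have h3 : (1 : ℝ) ≤ 4 * FD q := by rw [hz]; linarith
    have h4 : (1 : ℝ) ≤ (4 * FD q) ^ 2 := by nlinarith
    have h5 := mul_le_mul_of_nonneg_left h4 hρ
    nlinarith
  have h3 : 0 < 1 / (4 * FD q) := by positivity
  have h4 : (1 / (4 * FD q)) * 1 ≤ (1 / (4 * FD q)) * (2 - r2q q * ri ε q ^ 2) :=
    mul_le_mul_of_nonneg_left (by linarith) h3.le
  linarith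

/-- **the divergence is nonnegative** near the edge line -/
theorem dR_nonneg {φ : ℝ → ℝ} {ε : ℝ} (hε : 0 < ε) {q : ℝ × ℝ × ℝ} (h0 : 0 ≤ φ q.1)
    (hq : r2q q ≤ 1 / 4) : 0 ≤ dR φ ε q := by
  have hD := FD_pos q
  have hr := ri_pos hε q
  have hf := ri_facts hε q
  have hρ : 0 ≤ r2q q := by unfold r2q; positivity
  have hFD : FD q = 1 / 4 + q.1 ^ 2 / 8 + r2q q := rfl
  have e : dR φ ε q = φ q.1 * (ri ε q * ((1 / (4 * FD q)) * (2 - r2q q * ri ε q ^ 2) -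
      r2q q / (2 * FD q ^ 2))) := by
    unfold dR omF
    ring
  rw [e]
  refine mul_nonneg h0 (mul_nonneg hr.le ?_)
  have h3 : 0 < 1 / (4 * FD q) := by positivity
  have h4 : (1 / (4 * FD q)) * 1 ≤ (1 / (4 * FD q)) * (2 - r2q q * ri ε q ^ 2) :=
    mul_le_mul_of_nonneg_left (by linarith) h3.le
  have h5 : r2q q / (2 * FD q ^ 2) ≤ 1 / (4 * FD q) := by
    rw [div_le_div_iff₀ (by positivity) (by positivity)]
    have h6 : 2 * r2q q ≤ FD q := by
      rw [hFD]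
      have := sq_nonneg q.1
      linarith
    have h7 := mul_le_mul_of_nonneg_left h6 hD.le
    nlinarith
  linarith

variable (b : OrthonormalBasis (Fin 3) ℝ E3) (c : E3)

theorem fd_b1 {G : ℝ × ℝ × ℝ → ℝ} (hG : ContDiff ℝ 1 G) (x : E3) :
    fderiv ℝ (fun y => G (co b c y)) x (b 1) = Helper22.MEI.E2 G (co b c x) := by
  obtain ⟨⟨i00, i01, i02⟩, ⟨i10, i11, i12⟩, ⟨i20, i21, i22⟩⟩ := ibv b
  rw [fd_co b c hG, i01, i11, i21]
  rfl

theorem fd_b2 {G : ℝ × ℝ × ℝ → ℝ} (hG : ContDiff ℝ 1 G) (x : E3) :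
    fderiv ℝ (fun y => G (co b c y)) x (b 2) = Helper22.MEI.E3 G (co b c x) := by
  obtain ⟨⟨i00, i01, i02⟩, ⟨i10, i11, i12⟩, ⟨i20, i21, i22⟩⟩ := ibv b
  rw [fd_co b c hG, i02, i12, i22]
  rfl

/-! ### the flux -/

section
variable {b : OrthonormalBasis (Fin 3) ℝ E3} {c : E3} {σ : Measure (E3 × E3)}
  [IsFiniteMeasure σ] {K : Set E3} (hK : IsCompact K)
  (hσ : ∀ᵐ z ∂σ, z.1 ∈ K ∧ z.2 ∈ K) (hd : ∀ᵐ z ∂σ, ‖z.1 - z.2‖ ≤ 1)
  (hU : ∀ G : E3 → E3, ContDiff ℝ ∞ G → ∫ z, ⟪G z.1, z.1 - z.2⟫ ∂σ = ∫ x in K, dvg G x)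
  {s1 s2 s3 s4 : ℝ} (h : Bod b c K s1 s2 s3 s4)

include hK hσ hd hU h in
/-- **the radial flux** (smooth weight) -/
theorem rad_flux {φ : ℝ → ℝ} (sφ : ContDiff ℝ ∞ φ)
    (hφ : ∀ X : ℝ, |X| ≤ 1 / 2 → 0 ≤ φ X) {ε : ℝ} (hε : 0 < ε) :
    ∫ x in K ∩ EC b c, dR φ ε (co b c x) ≤
      ∫ z in {z | z.1 ∈ EC b c}, omF φ (co b c z.1) ∂σ := by
  have s1' : ContDiff ℝ 1 φ := sφ.of_le (by exact_mod_cast le_top)
  have g1 : ContDiff ℝ ∞ (fun x => omF φ (co b c x) * hY ε (co b c x)) :=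
    ((omF_cd sφ).comp (co_cdn b c)).mul ((hY_cd hε).comp (co_cdn b c))
  have g2 : ContDiff ℝ ∞ (fun x => omF φ (co b c x) * hW ε (co b c x)) :=
    ((omF_cd sφ).comp (co_cdn b c)).mul ((hW_cd hε).comp (co_cdn b c))
  have l1 := fluxg_lim b c hK hσ hU g1 (b 1)
  have l2 := fluxg_lim b c hK hσ hU g2 (b 2)
  rw [cel_eq] at l1 l2
  have l3 := l1.add l2
  have hn := nuw_b b
  -- the walls
  have hwall : ∀ m : ℕ, 0 ≤ ⟪nuw b 0, b 1⟫ * (∫ x in K, omF φ (co b c x) * hY ε (co b c x) *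
        jk (m + 1) (Tw b c 1 x)) + ⟪nuw b 1, b 1⟫ * (∫ x in K, omF φ (co b c x) *
        hY ε (co b c x) * jk (m + 1) (Tw b c (-1) x)) +
      (⟪nuw b 0, b 2⟫ * (∫ x in K, omF φ (co b c x) * hW ε (co b c x) *
        jk (m + 1) (Tw b c 1 x)) + ⟪nuw b 1, b 2⟫ * (∫ x in K, omF φ (co b c x) *
        hW ε (co b c x) * jk (m + 1) (Tw b c (-1) x))) := by
    intro m
    have hm : (0 : ℝ) < (m : ℝ) + 1 := by positivity
    rw [(hn 0).1, (hn 1).1, (hn 0).2.1, (hn 0).2.2]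
    have iY : ∀ η : ℝ, IntegrableOn (fun x => omF φ (co b c x) * hY ε (co b c x) *
        jk (m + 1) (Tw b c η x)) K := fun η =>
      (g1.continuous.mul ((jk_cont _).comp (Tw_cont b c η))).continuousOn.integrableOn_compact hK
    have iW : ∀ η : ℝ, IntegrableOn (fun x => omF φ (co b c x) * hW ε (co b c x) *
        jk (m + 1) (Tw b c η x)) K := fun η =>
      (g2.continuous.mul ((jk_cont _).comp (Tw_cont b c η))).continuousOn.integrableOn_compact hK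
    have key : ∀ η : ℝ, 0 ≤ -η * (∫ x in K, omF φ (co b c x) * hY ε (co b c x) *
        jk (m + 1) (Tw b c η x)) + √2 / 2 * (∫ x in K, omF φ (co b c x) * hW ε (co b c x) *
        jk (m + 1) (Tw b c η x)) := by
      intro η
      rw [← integral_const_mul, ← integral_const_mul,
        ← integral_add ((iY η).const_mul _) ((iW η).const_mul _)]
      refine setIntegral_nonneg hK.isClosed.measurableSet fun x hx => ?_
      have hX := h.X_le x hx
      have h0 := hφ _ hX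
      have hD := FD_pos (co b c x)
      have hr := ri_pos hε (co b c x)
      have hj := jk_nonneg hm (Tw b c η x)
      have e : -η * (omF φ (co b c x) * hY ε (co b c x) * jk (m + 1) (Tw b c η x)) +
          √2 / 2 * (omF φ (co b c x) * hW ε (co b c x) * jk (m + 1) (Tw b c η x)) =
          omF φ (co b c x) * ri ε (co b c x) * ((Tw b c η x).2 * jk (m + 1) (Tw b c η x)) := by
        unfold hY hW Tw t
        simp only
        ring
      rw [e]
      have ho : 0 ≤ omF φ (co b c x) := div_nonneg h0 (by positivity)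
      refine mul_nonneg (mul_nonneg ho hr.le) ?_
      by_cases hl : 0 ≤ (Tw b c η x).2
      · exact mul_nonneg hl hj
      · rw [jk_zero hm fun hc => hl hc.1.1.le, mul_zero]
    have k1 := key 1
    have k2 := key (-1)
    rw [neg_neg] at k2
    linarith
  have h3 := ge_of_tendsto' l3 hwall
  -- the volume
  have f1 : ∀ x : E3, fderiv ℝ (fun y => omF φ (co b c y) * hY ε (co b c y)) x (b 1) +
      fderiv ℝ (fun y => omF φ (co b c y) * hW ε (co b c y)) x (b 2) = dR φ ε (co b c x) := by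
    intro x
    rw [fd_b1 b c (G := fun p => omF φ p * hY ε p) ((omF_cd s1').mul (hY_cd hε)),
      fd_b2 b c (G := fun p => omF φ p * hW ε p) ((omF_cd s1').mul (hW_cd hε)), dR_eq s1' hε]
  have iv1 : IntegrableOn (fun x => fderiv ℝ (fun y => omF φ (co b c y) * hY ε (co b c y)) x
      (b 1)) (K ∩ EC b c) :=
    (((g1.continuous_fderiv (by simp)).clm_apply
      continuous_const).continuousOn.integrableOn_compact hK).mono_set inter_subset_left
  have iv2 : IntegrableOn (fun x => fderiv ℝ (fun y => omF φ (co b c y) * hW ε (co b c y)) x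
      (b 2)) (K ∩ EC b c) :=
    (((g2.continuous_fderiv (by simp)).clm_apply
      continuous_const).continuousOn.integrableOn_compact hK).mono_set inter_subset_left
  have h4 : ∫ x in K ∩ EC b c, dR φ ε (co b c x) =
      (∫ x in K ∩ EC b c, fderiv ℝ (fun y => omF φ (co b c y) * hY ε (co b c y)) x (b 1)) +
      ∫ x in K ∩ EC b c, fderiv ℝ (fun y => omF φ (co b c y) * hW ε (co b c y)) x (b 2) := by
    rw [← integral_add iv1 iv2]
    exact integral_congr_ae (Eventually.of_forall fun x => (f1 x).symm)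
  -- the flux
  have cc : ∀ (g : E3 → ℝ), Continuous g → ∀ v : E3,
      Integrable (fun z : E3 × E3 => g z.1 * ⟪v, z.1 - z.2⟫) σ := by
    intro g hg v
    have hc : Continuous (fun z : E3 × E3 => g z.1 * ⟪v, z.1 - z.2⟫) :=
      (hg.comp continuous_fst).mul (by fun_prop)
    obtain ⟨B1, hB1⟩ := (hK.prod hK).bddAbove_image (hc.abs).continuousOn
    refine Integrable.of_bound hc.aestronglyMeasurable B1 ?_
    filter_upwards [hσ] with z hz
    exact hB1 ⟨z, ⟨hz.1, hz.2⟩, rfl⟩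
  have ho : Continuous (fun z : E3 × E3 => omF φ (co b c z.1)) :=
    (((omF_cd sφ).comp (co_cdn b c)).continuous).comp continuous_fst
  have hoi : Integrable (fun z : E3 × E3 => omF φ (co b c z.1)) σ := by
    obtain ⟨B1, hB1⟩ := (hK.prod hK).bddAbove_image (ho.abs).continuousOn
    refine Integrable.of_bound ho.aestronglyMeasurable B1 ?_
    filter_upwards [hσ] with z hz
    exact hB1 ⟨z, ⟨hz.1, hz.2⟩, rfl⟩
  have h5 : (∫ z in {z | z.1 ∈ EC b c}, omF φ (co b c z.1) * hY ε (co b c z.1) *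
        ⟪b 1, z.1 - z.2⟫ ∂σ) + (∫ z in {z | z.1 ∈ EC b c}, omF φ (co b c z.1) *
        hW ε (co b c z.1) * ⟪b 2, z.1 - z.2⟫ ∂σ) ≤
      ∫ z in {z | z.1 ∈ EC b c}, omF φ (co b c z.1) ∂σ := by
    rw [← integral_add (cc _ g1.continuous _).integrableOn (cc _ g2.continuous _).integrableOn]
    refine integral_mono_ae ((cc _ g1.continuous _).integrableOn.add
      (cc _ g2.continuous _).integrableOn) hoi.integrableOn ?_
    filter_upwards [ae_restrict_of_ae hσ, ae_restrict_of_ae hd] with z hz hz1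
    have hX := h.X_le z.1 hz.1
    have h0 := hφ _ hX
    have hD := FD_pos (co b c z.1)
    have hr := ri_pos hε (co b c z.1)
    have ho : 0 ≤ omF φ (co b c z.1) := div_nonneg h0 (by positivity)
    show omF φ (co b c z.1) * hY ε (co b c z.1) * ⟪b 1, z.1 - z.2⟫ +
      omF φ (co b c z.1) * hW ε (co b c z.1) * ⟪b 2, z.1 - z.2⟫ ≤ omF φ (co b c z.1)
    have e : omF φ (co b c z.1) * hY ε (co b c z.1) * ⟪b 1, z.1 - z.2⟫ +
      omF φ (co b c z.1) * hW ε (co b c z.1) * ⟪b 2, z.1 - z.2⟫ = omF φ (co b c z.1) *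
      ⟪hY ε (co b c z.1) • b 1 + hW ε (co b c z.1) • b 2, z.1 - z.2⟫ := by
      rw [inner_add_left, real_inner_smul_left, real_inner_smul_left]
      ring
    rw [e]
    refine mul_le_of_le_one_right ho ?_
    refine (real_inner_le_norm _ _).trans ?_
    have hv : ‖hY ε (co b c z.1) • b 1 + hW ε (co b c z.1) • b 2‖ ≤ 1 := by
      obtain ⟨⟨i00, i01, i02⟩, ⟨i10, i11, i12⟩, ⟨i20, i21, i22⟩⟩ := ibv b
      have h6 : ‖hY ε (co b c z.1) • b 1 + hW ε (co b c z.1) • b 2‖ ^ 2 =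
          hY ε (co b c z.1) ^ 2 + hW ε (co b c z.1) ^ 2 := by
        rw [← real_inner_self_eq_norm_sq]
        simp only [inner_add_left, inner_add_right, real_inner_smul_left, real_inner_smul_right,
          i11, i12, i21, i22]
        ring
      have h7 : hY ε (co b c z.1) ^ 2 + hW ε (co b c z.1) ^ 2 ≤ 1 := by
        have h8 := ri_facts hε (co b c z.1)
        refine le_trans (le_of_eq ?_) h8
        unfold hY hW r2q
        ring
      rw [← h6] at h7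
      have h9 : ‖hY ε (co b c z.1) • b 1 + hW ε (co b c z.1) • b 2‖ ^ 2 ≤ 1 ^ 2 := by
        rw [one_pow]; exact h7
      exact le_of_sq_le_sq h9 zero_le_one
    exact mul_le_one₀ hv (norm_nonneg _) hz1
  rw [h4]
  linarith

end

end Helper63.Rad
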